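import Pool.Agent.Helper88.CR.GoalsA
import Pool.Agent.Helper76.TW.Goals

/-!
# Project T74 (MP_74f661_nt), block B: primes `m` with `m + 2` free of small prime factors

Final statements: `Helper76.TW.StmtL2` (lower bound of the right order for the primes `m ≡ a (Q)`, `Q` about
the product of the primes `≤ w`, such that `m + 2` has no prime factor in `(w, x^(1/E)]` except one
exceptional prime `p₁ ≥ P₀`) and `Helper76.TW.StmtRT`.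

Part A: characters (as part A of project CR, `Pool/Agent/Helper88/CR/GoalsA.lean`, for general moduli).
Part B: primes in progressions to moduli `q₀ d`, `d ≤ exp((log x)^(1/3))` squarefree, not divisible by one
exceptional prime `p₀ ≥ N`, with an error smaller than any power of `log x` (`StmtSW`).
Part C: the sieve.  The moduli `Q d₁ d₂`, `d₂` with all prime factors `> u = (log x)^C`, are reduced to
`Q d₁` by `StmtRT` (large sieve, relative to the modulus `Q d₁`), `Q d₁` by `StmtSW`.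

Everything in `CR/GoalsA.lean` and `CG/Goals.lean` is proved:
`Pool.Agent.Helper88.CR.mSC, mZB, mCH, mLO` (`Pool/Agent/Helper88/CR/MainA.lean`), the packets assume the
statements `CR.StmtSC, ..` as hypotheses; `Pool.Agent.Helper8.CR.al, pf, p4`, `Pool.Agent.Helper58.CR.p2`,
`Pool.Agent.Helper61.CR.fs, tv, mt, cy`, `Pool.Agent.Helper67.CR.fw`, `Pool.Agent.Helper11.CR.f0`.
-/

set_option autoImplicit false

open Finset Filter Topology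

open scoped Classical ArithmeticFunction

namespace Pool.Agent.Helper57.TW

open Pool.Agent.Helper88.CG (tw pw th)
open Pool.Agent.Helper88.CR (rg Wz gj LL PL ci ch)
open Pool.Agent.Helper88.PP (SS pr om)
open Pool.Agent.Helper76.TW (Qm)

/-! ## Part A: characters -/

/-- PACKET MX (Mertens' theorem for one character).
Proof.  (i) `|∑_{u < k ≤ v} χ(k)| ≤ q` (the sum over a period is `0`, as `χ ≠ 1`); hence for real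
`f ≥ 0` decreasing on `(u, v]`: `|∑_{u < k ≤ v} χ(k) f(k)| ≤ 2 q f(u + 1)` (Abel).
(ii) `L₁ = LFunction χ 1 ≠ 0` (`DirichletCharacter.LFunction_apply_one_ne_zero`), and
`|∑_{k ≤ w} χ(k)/k - L₁| ≤ 2q/w` for `w ≥ 1`: for `σ > 1`, `∑_k χ(k) k^(-σ) = LFunction χ σ`
(`DirichletCharacter.LFunction_eq_LSeries`), and by (i) the tail after `w` is at most `2 q w^(-σ)` (let the
upper end tend to infinity); let `σ → 1` (`LFunction` is continuous, the finite sum is continuous).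
(iii) `|∑_{n ≤ y} χ(n) log n/n| ≤ C` (`log t/t` decreases for `t ≥ 3`).
(iv) `log = Λ * 1`: `∑_{n ≤ y} χ(n) log n/n = ∑_{m ≤ y} (χ(m) Λ(m)/m) ∑_{k ≤ y/m} χ(k)/k
= L₁ ∑_{m ≤ y} χ(m) Λ(m)/m + O(∑_{m ≤ y} (Λ(m)/m) 2 q · 2 m/y)` and `∑_{m ≤ y} Λ(m) ≤ C y` (Chebyshev,
Mathlib `Chebyshev.psi_le..` or `theta_le_log4_mul_x`). -/
def StmtMX : Prop := ∀ (q : ℕ) [NeZero q] (χ : DirichletCharacter ℂ q), χ ≠ 1 →
  ∃ B : ℝ, ∀ N : ℕ,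
    ‖∑ n ∈ Icc 1 N, χ n * ((ArithmeticFunction.vonMangoldt n : ℝ) : ℂ) / n‖ ≤ B

/-- PACKET R0 (a fixed character, at a real point; from MX).
Proof.  For `z ≥ q` the rough integers (`rg z`, no prime factor `≤ z`) are the integers prime to
`N = q · primorial z`, so `LL (ch z χ) 0 σ = LSeries χ' σ`, `χ' = changeLevel χ` modulo `N` (see
`Pool/Agent/Helper8/CR/P4.lean`), `= exp(∑_{p > z} -log(1 - χ(p) p^(-σ)))`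
(`DirichletCharacter.LSeries_eulerProduct_exp_log`; `χ'(p) = 0` for `p ≤ z`).  The difference of the exponent
and `∑_{p > z} χ(p) p^(-σ)` is at most `∑_{p > z} p^(-2) ≤ 1/z`.  `∑_{z < p} χ(p) p^(-σ)
= ∑_{z < n} (χ(n) Λ(n)/n) n^(1-σ)/log n` minus the proper prime powers (at most `C/√z`), and by partial
summation from MX with the decreasing `f(t) = t^(1-σ)/log t ≤ 1/log z` for `t > z` this is at most
`4 B/log z`.  So the exponent tends to `0`. -/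
def StmtR0 : Prop := ∀ (q : ℕ) [NeZero q] (χ : DirichletCharacter ℂ q), χ ≠ 1 →
  ∀ κ : ℝ, 0 < κ → ∃ z0 : ℕ, ∀ z : ℕ, z0 ≤ z →
  1 / 2 ≤ ‖LL (ch z χ) 0 (1 + ((κ / Real.log z : ℝ) : ℂ))‖

/-- PACKET LC (part (C) of `CR.StmtLO`, for an arbitrary `c'`; from `CR.StmtCH, StmtZB, StmtP4`).
Proof: part (C) in the proof of `CR.StmtLO` (`Pool/Agent/Helper47/CR/LO.lean`; copy it): at
`s₀ = 1 + c/l + i t`, `l = log z`: `|L(1 + c/l, 1)| ≤ 2K/c`, `|L(1 + c/l + 2 i t, χ²)| ≤ 2K/c'`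
(`StmtCH` if `χ² ≠ 1`; `StmtZB` if `χ² = 1`, as then `|2t| ≥ c'/l`), so
`|L(s₀, χ)| ≥ (c/2K)^(3/4) (c'/2K)^(1/4)` by 3-4-1; moving to `1 < Re s ≤ 1 + c/l` costs at most `K² c`,
at most half of this if `c` is small enough (depending on `c'`). -/
def StmtLC : Prop := ∀ c' : ℝ, 0 < c' → c' ≤ 1 → ∃ c : ℝ, 0 < c ∧ c ≤ c' ∧ ∃ z0 : ℕ,
  ∀ (z q : ℕ) [NeZero q], z0 ≤ z → q ^ 8 ≤ z → ∀ χ : DirichletCharacter ℂ q, χ ≠ 1 →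
  ∀ s : ℂ, 1 < s.re → s.re ≤ 1 + c / Real.log z → |s.im| ≤ (z : ℝ) ^ (1 / 32 : ℝ) →
  (χ ^ 2 ≠ 1 ∨ c' / Real.log z ≤ |s.im|) → c ≤ ‖LL (ch z χ) 0 s‖

/-- PACKET FX (fixed characters; from R0, LC, `CR.StmtCH`).
Proof.  Let `K ≥ 1` be from `StmtCH`, `c' = 1/(8 K²)`, `c ≤ c'` from LC.  If `χ² ≠ 1` or `|Im s| ≥ c'/l`,
`l = log z`: LC.  Otherwise let `z ≥ z₀(χ)` of R0 with `κ = c`, `s₁ = 1 + c/l`: the derivative of `L(·, χ)` is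
`-LL (ch z χ) 1 s`, of norm `≤ K² l` in the convex region (`StmtCH` with `j = 1`; see `hasDeriv`, `Om` in
`Pool/Agent/Helper47/CR/LO.lean`), so `|L(s)| ≥ |L(s₁)| - K² l |s - s₁| ≥ 1/2 - K² (c + c') ≥ 1/4 ≥ c`.
There are finitely many `χ` modulo `q`. -/
def StmtFX : Prop := ∃ c : ℝ, 0 < c ∧ c ≤ 1 ∧ ∀ (q : ℕ) [NeZero q], ∃ z0 : ℕ, ∀ z : ℕ, z0 ≤ z →
  ∀ χ : DirichletCharacter ℂ q, χ ≠ 1 →
  ∀ s : ℂ, 1 < s.re → s.re ≤ 1 + c / Real.log z → |s.im| ≤ (z : ℝ) ^ (1 / 32 : ℝ) →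
  c ≤ ‖LL (ch z χ) 0 s‖

/-- PACKET XP (THE EXCEPTIONAL PRIME; from FX and `CR.StmtLO`).
Proof.  `c = min (c_LO) (c_FX)`.  Given `q₀, N` let `N' = max N (q₀ + 1)`, `R = q₀ · ∏_{p < N'} p`, and `z₀`
large (at least those of LO and of FX for the modulus `R`, and `z₀ ≥ R`).  Fix `z ≥ z₀`.  Call
`(d, χ)` bad if `d` is squarefree, `(q₀ d)^16 ≤ z`, `χ ≠ 1` modulo `q₀ d` and `|LL (ch z χ) 0 s| < c` for some
`s` of the region.  If there is no bad pair, let `p₀ ≥ N'` be any prime.  Otherwise fix a bad pair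
`(d₁, χ₁)` and let `r` be the conductor of `χ₁`, `r ∣ q₀ d₁`.
(1) Suppose all prime factors of `r` are `< N'`.  As `d₁` is squarefree and `r ∣ q₀ d₁`, `r ∣ R`.  The
primitive character of `χ₁` (`χ₁.primitiveCharacter`, modulo `r`) has the same `LL` as `χ₁` (all rough
integers are prime to everything `≤ z`; `Pool.Agent.Helper8.CR.ll_changeLevel` in
`Pool/Agent/Helper8/CR/RM.lean`), and so has its lift to modulus `R`, which is `≠ 1`: this contradicts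
FX for `R`.
(2) So `r` has a prime factor `p₀ ≥ N'`; it does not divide `q₀`.  Let `d` be squarefree, `p₀ ∤ d`,
`(q₀ d)^16 ≤ z`, `χ ≠ 1` modulo `q₀ d`, and suppose `(d, χ)` is bad.  Lift `χ` and `χ₁` to
`q = q₀ d · q₀ d₁` (`q^8 ≤ z` because `(q₀ d)^16, (q₀ d₁)^16 ≤ z`).  The lifts are `≠ 1`
(`DirichletCharacter.changeLevel_eq_one_iff`) and have the same `LL`, so both violate the conclusion of
`StmtLO`; so they are equal, to `ψ` say.  Let `f` be the conductor of `ψ`; `f ∣ q₀ d` and `f ∣ q₀ d₁`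
(`conductor_dvd_of_mem_conductorSet`), `ψ = changeLevel θ` with `θ` modulo `f`, and `changeLevel` from
`q₀ d₁` to `q` is injective, so `χ₁` is the lift of `θ` to `q₀ d₁`; hence `r ∣ f ∣ q₀ d`, which is not
divisible by `p₀`, a contradiction. -/
def StmtXP : Prop := ∃ c : ℝ, 0 < c ∧ c ≤ 1 ∧ ∀ q0 N : ℕ, 1 ≤ q0 → ∃ z0 : ℕ, ∀ z : ℕ, z0 ≤ z →
  ∃ p0 : ℕ, p0.Prime ∧ N ≤ p0 ∧ ¬ p0 ∣ q0 ∧
  ∀ d : ℕ, Squarefree d → ¬ p0 ∣ d → (q0 * d) ^ 16 ≤ z →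
  ∀ χ : DirichletCharacter ℂ (q0 * d), χ ≠ 1 →
  ∀ s : ℂ, 1 < s.re → s.re ≤ 1 + c / Real.log z → |s.im| ≤ (z : ℝ) ^ (1 / 32 : ℝ) →
  c ≤ ‖LL (ch z χ) 0 s‖

/-- PACKET PG (prime powers in classes, as a Dirichlet series; from XP and `CR.StmtSC, StmtCH, StmtAL,
StmtPF`).  Proof: that of `CR.StmtPS` (`Pool/Agent/Helper42/CR/PS.lean`; copy it), with `q = q₀ d` in place
of `primorial w/p` and XP in place of `CR.StmtRM`. -/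
def StmtPG : Prop := ∃ K c : ℝ, 1 ≤ K ∧ 0 < c ∧ c ≤ 1 ∧ ∀ q0 N : ℕ, 1 ≤ q0 → ∃ z0 : ℕ,
  ∀ z : ℕ, z0 ≤ z → ∃ p0 : ℕ, p0.Prime ∧ N ≤ p0 ∧ ¬ p0 ∣ q0 ∧
  ∀ d : ℕ, Squarefree d → ¬ p0 ∣ d → (q0 * d) ^ 16 ≤ z → ∀ a : ℕ, Nat.Coprime a (q0 * d) →
  ∀ (s : ℂ) (k : ℕ), 1 < s.re → s.re ≤ 1 + c / Real.log z → |s.im| ≤ (z : ℝ) ^ (1 / 32 : ℝ) →
  ‖PL (ci z (q0 * d) a) k s
      - ((1 / (Nat.totient (q0 * d) : ℝ) : ℝ) : ℂ) * PL (ci z 1 0) k s‖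
    ≤ 1 / (Nat.totient (q0 * d) : ℝ) * (K * Real.log z) ^ (k + 1)

/-! ## Part B: from the Dirichlet series to the primes -/

/-- the tent in `log n` with centre `v` and half width `η` -/
noncomputable def te (v η : ℝ) (n : ℕ) : ℝ := max 0 (1 - |Real.log (n / v)| / η)

/-- the same, periodic in `log n` with period `4 log x` -/
noncomputable def pe (x : ℕ) (v η : ℝ) (n : ℕ) : ℝ :=
  max 0 (1 - |Real.log (n / v) / (4 * Real.log x)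
    - round (Real.log (n / v) / (4 * Real.log x))| / (η / (4 * Real.log x)))

/-- `Λ(n) (log n)^k/k! n^(-1-k/log x)` -/
noncomputable def fk (x k n : ℕ) : ℝ := ArithmeticFunction.vonMangoldt n *
  (Real.log n ^ k / (k.factorial : ℝ)) * (n : ℝ) ^ (-(1 + k / Real.log x))

/-- `(log x)^k e^(-k)/k!` -/
noncomputable def m0 (x k : ℕ) : ℝ := Real.log x ^ k * Real.exp (-(k : ℝ)) / (k.factorial : ℝ)

/-- PACKET FN (Fourier expansion of the narrow periodic tent; from `CG.StmtTF`,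
`Pool.Agent.Helper5.CG.tf`).
Proof: that of `CR.StmtFS` (`Pool/Agent/Helper61/CR/FS.lean`; copy it) with `h = η/(4 log x) ≤ 1/2` and
`u = log(n/v)/(4 log x) - round(..)`:
`pe x v η n = h + ∑_ν c_ν cos(2π(ν+1) u)`, `cos(2π(ν+1) u) = Re (v^(-i t_ν) n^(i t_ν))`,
`t_ν = 2π(ν+1)/(4 log x)`, `c_ν = (1 - cos(2π(ν+1)h))/(h π² (ν+1)²) ≥ 0`, `h + ∑ c_ν = 1`.  The `ν` with
`t_ν ≤ T` and the constant term contribute at most `E1`; the others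
`E2 ∑_{ν+1 > 4 T log x/(2π)} 2/(h π² (ν+1)²) ≤ C E2/(h T log x) = 4 C E2/(η T)`. -/
def StmtFN : Prop := ∃ C : ℝ, 0 < C ∧ ∀ (x : ℕ) (v η T E1 E2 : ℝ) (g : ℕ → ℝ), 16 ≤ x → 0 < v →
  0 < η → η ≤ 1 → 1 ≤ T → Summable g → g 0 = 0 →
  (∀ t : ℝ, |t| ≤ T → ‖∑' n, (g n : ℂ) * (n : ℂ) ^ (Complex.I * t)‖ ≤ E1) →
  (∀ t : ℝ, ‖∑' n, (g n : ℂ) * (n : ℂ) ^ (Complex.I * t)‖ ≤ E2) →
  |∑' n, g n * pe x v η n| ≤ E1 + C * E2 / (η * T)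

/-- PACKET TN (trivial bound).
Proof: that of `CR.StmtTV` (`Pool/Agent/Helper61/CR/TV.lean`) with `k` in place of `kx x`: with
`δ = k/log x`, `(δ log n/2)^(k+1)/(k+1)! ≤ n^(δ/2)`, so
`∑ (log n)^(k+1)/k! n^(-1-δ) ≤ (k+1) (2/δ)^(k+1) ∑ n^(-1-δ/2)`. -/
def StmtTN : Prop := ∀ x k : ℕ, 16 ≤ x → 1 ≤ k → Summable (fk x k) ∧ fk x k 0 = 0 ∧
  ∑' n, fk x k n ≤ (k + 1) * (2 * Real.log x / k) ^ (k + 1) * (1 + 2 * Real.log x / k)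

/-- PACKET CN (the copies of the tent).
Proof: as `CR.StmtCY` (`Pool/Agent/Helper61/CR/CY.lean`).  If `n > 4x` and `pe x v η n ≠ 0` then
`|log(n/v) - 4 r log x| < η` for some `r ≥ 1` (`log(n/v) > log 4 > η`).  The number of such `n ≡ a (q)` is
at most `3 η v x^(4r)/q + 1 ≤ 4 η v x^(4r)/q` (`q ≤ η x ≤ η v x^4`).  For them `log n ≤ (4r+2) log x`,
`1/n ≤ 3/(v x^(4r))`, `n^(-k/log x) ≤ 48 e^(-k) e^(-4rk)` (`v e^(-η) ≥ x/48`, `k ≤ log x`), so the sum is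
at most `∑_r (4 η/q) (((4r+2) log x)^(k+1)/k!) · 3 · 48 e^(-k-4rk)
= (576 η/q) (log x) m0 ∑_r (4r+2) ((4r+2) e^(-4r))^k`, and `(4r+2) e^(-4r) ≤ e^(-2r)` for `r ≥ 1`
(`6 ≤ e²`), so `∑_r (4r+2) e^(-2rk) ≤ C e^(-2k)`. -/
def StmtCN : Prop := ∃ C : ℝ, 0 < C ∧ ∀ (x k q a : ℕ) (v η : ℝ), 16 ≤ x → 1 ≤ k →
  (k : ℝ) ≤ Real.log x → 1 ≤ q → 0 < η → η ≤ 1 → (q : ℝ) ≤ η * x → (x : ℝ) / 16 ≤ v → v ≤ x →
  Summable (fun n => (if 4 * x < n ∧ n ≡ a [MOD q] then fk x k n else 0) * pe x v η n) ∧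
  ∑' n, (if 4 * x < n ∧ n ≡ a [MOD q] then fk x k n else 0) * pe x v η n
    ≤ C * (η / q) * Real.log x * m0 x k * Real.exp (-(2 * (k : ℝ)))

/-- the parameter of the rough integers: about `exp(√(log x))` -/
noncomputable def zx (x : ℕ) : ℕ := ⌊Real.exp (√(Real.log x))⌋₊

/-- the rough prime powers in a class, with the narrow tent -/
noncomputable def Dv (x q a : ℕ) (v η : ℝ) : ℝ :=
  ∑ n ∈ (Icc 1 (4 * x)).filter (fun n => n ≡ a [MOD q] ∧ rg (zx x) n),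
    ArithmeticFunction.vonMangoldt n * te v η n

/-- PACKET NA (the weights are almost constant on a narrow tent).
Proof.  On the support of `te`, `v e^(-η) < n < v e^η`, so `fk x k n = F Λ(n) (1 + θ)`, `|θ| ≤ C η`, with
`δ = k/log x`, `F = (log v)^k/k! v^(-(1+δ))`: `(log n/log v)^k` is between `(1 ± η/log v)^k`,
`k η/log v ≤ η`; `(n/v)^(-(1+δ))` is between `e^(∓2η)`.  And `F ≥ m0/(2x)`:
`(log v)^k ≥ (log x - log 16)^k ≥ (log x)^k/2` (`k² ≤ log x`), `v^(-δ) ≥ e^(-k)`.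
Trivially `Dv x q a v η ≤ (3 η v/q + 1) log(4x) ≤ C η x log x/q` (`1 ≤ η x/q`), `1/q ≤ 1/φ(q)`, the same for
`(1/φ) Dv x 1 0 v η`.  The sum on the right is `F (Dv x q a v η - Dv x 1 0 v η/φ)` up to
`F C η (Dv x q a v η + Dv x 1 0 v η/φ)`; divide by `F`. -/
def StmtNA : Prop := ∃ C : ℝ, 0 < C ∧ ∃ x0 : ℕ, ∀ x k q a : ℕ, x0 ≤ x → 1 ≤ k →
  (k : ℝ) ^ 2 ≤ Real.log x → 1 ≤ q → ∀ v η : ℝ, (x : ℝ) / 16 ≤ v → v ≤ x → 0 < η → η ≤ 1 →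
  (q : ℝ) ≤ η * x →
  |Dv x q a v η - Dv x 1 0 v η / (Nat.totient q : ℝ)|
    ≤ 2 * x / m0 x k * |∑ n ∈ (Icc 1 (4 * x)).filter (rg (zx x)),
        fk x k n * te v η n * ((if n ≡ a [MOD q] then 1 else 0) - 1 / (Nat.totient q : ℝ))|
      + C * η ^ 2 * (x * Real.log x) / (Nat.totient q : ℝ)

/-- PACKET NB (the sum over the rough prime powers with one narrow tent; from PG, FN, TN, CN).
Proof.  `δ = k/log x`, `ζ = zx x`, `q = q₀ d`, `φ = φ(q)`; for large `x`: `(q₀ d)^16 ≤ ζ` (as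
`16 (log q₀ + (log x)^(1/3)) ≤ √(log x) - 1`), `δ ≤ c/log ζ` (`log ζ ≤ √(log x)`, `k^4 ≤ log x`).
`g(n) = fk x k n ([n ≡ a (q), n rough] - (1/φ) [n rough])`, so that
`∑ g(n) n^(it) = PL (ci ζ q a) k (1+δ-it) - (1/φ) PL (ci ζ 1 0) k (1+δ-it)`: `E1 = (1/φ) (K log ζ)^(k+1)`
for `|t| ≤ T = ζ^(1/32)` (PG), `E2 = 2 ∑ fk`.  For `1 ≤ n ≤ 4x`, `pe x v η n = te v η n` (then
`|log(n/v)| < 2 log x`, so `round = 0`).  FN for the whole sum, CN (for `q` and for `1`, the latter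
times `1/φ`) for the terms `n > 4x` (drop the condition rough, `0 ≤ fk, pe`). -/
def StmtNB : Prop := ∃ K : ℝ, 1 ≤ K ∧ ∀ q0 N : ℕ, 1 ≤ q0 → ∃ x0 : ℕ, ∀ x : ℕ, x0 ≤ x →
  ∃ p0 : ℕ, p0.Prime ∧ N ≤ p0 ∧ ¬ p0 ∣ q0 ∧
  ∀ d : ℕ, Squarefree d → ¬ p0 ∣ d → (d : ℝ) ≤ Real.exp (Real.log x ^ (1 / 3 : ℝ)) →
  ∀ a : ℕ, Nat.Coprime a (q0 * d) → ∀ k : ℕ, 1 ≤ k → (k : ℝ) ^ 4 ≤ Real.log x →
  ∀ v η : ℝ, (x : ℝ) / 16 ≤ v → v ≤ x → 0 < η → η ≤ 1 → ((q0 * d : ℕ) : ℝ) ≤ η * x →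
  |∑ n ∈ (Icc 1 (4 * x)).filter (rg (zx x)),
      fk x k n * te v η n *
        ((if n ≡ a [MOD q0 * d] then 1 else 0) - 1 / (Nat.totient (q0 * d) : ℝ))|
    ≤ 1 / (Nat.totient (q0 * d) : ℝ) * (K * √(Real.log x)) ^ (k + 1)
      + K * (∑' n, fk x k n) / (η * (zx x : ℝ) ^ (1 / 32 : ℝ))
      + K * η / (Nat.totient (q0 * d) : ℝ) * Real.log x * m0 x k * Real.exp (-(2 * (k : ℝ)))

/-- PACKET NV (one narrow tent; from NA, NB, TN).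
Proof.  `k = ⌈κ log log x⌉` with `κ = 3B + 10`; `E3` the right side of NB; NA: it remains to see that
`(2x/m0) E3 ≤ η² x/φ` for large `x`, `η ≥ (log x)^(-B)`.  `m0 ≥ (log x/(e k))^k` (`k! ≤ k^k`).  First term:
`(1/φ) K √(log x) (K √(log x) e k/log x)^k`, `K e k/√(log x) ≤ (log x)^(-1/3)`.  Second term: by TN
`∑ fk/m0 ≤ (2e)^k (log x)^4`, `(2e)^k ≤ (log x)^(2κ+1)`, while `(zx x)^(1/32) ≥ exp(√(log x)/33)` and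
`φ ≤ q₀ exp((log x)^(1/3))`.  Third term: `(log x) e^(-2k) ≤ (log x)^(1-2κ)`. -/
def StmtNV : Prop := ∀ q0 N B : ℕ, 1 ≤ q0 → ∃ C : ℝ, 0 < C ∧ ∃ x0 : ℕ, ∀ x : ℕ, x0 ≤ x →
  ∃ p0 : ℕ, p0.Prime ∧ N ≤ p0 ∧ ¬ p0 ∣ q0 ∧
  ∀ d : ℕ, Squarefree d → ¬ p0 ∣ d → (d : ℝ) ≤ Real.exp (Real.log x ^ (1 / 3 : ℝ)) →
  ∀ a : ℕ, Nat.Coprime a (q0 * d) → ∀ v η : ℝ, (x : ℝ) / 16 ≤ v → v ≤ x →
  1 / Real.log x ^ B ≤ η → η ≤ 1 →
  |Dv x (q0 * d) a v η - Dv x 1 0 v η / (Nat.totient (q0 * d) : ℝ)|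
    ≤ C * η ^ 2 * (x * Real.log x) / (Nat.totient (q0 * d) : ℝ)

/-- PACKET IP (interpolation).
Proof.  With `y = log(16 n/x)/(log 4/M)`: the left side is `max 0 (1 - |y - M|/M)`, the terms on the
right are `(1 - |i - M|/M) max 0 (1 - |y - i|)`, `0 ≤ i ≤ 2M`; piecewise linear interpolation (`y < 0`,
`y ≥ 2M`: both sides are `0`; `j ≤ y < j + 1`: only `i = j, j + 1` contribute). -/
def StmtIP : Prop := ∀ x n M : ℕ, 1 ≤ x → 1 ≤ n → 1 ≤ M →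
  tw x n = ∑ i ∈ range (2 * M + 1), (1 - |(i : ℝ) - M| / M) *
    te (x / 16 * Real.exp (i * (Real.log 4 / M))) (Real.log 4 / M) n

/-- PACKET SW (PRIMES IN PROGRESSIONS TO SMALL MODULI, one exceptional prime; from NV, IP).
Proof.  Use NV with `B + 3`, `M = ⌈(log x)^(B+2)⌉`, `η = log 4/M` (`≥ (log x)^(-(B+3))`).
`(log x) th x q a = ∑_{n ≤ x, n ≡ a (q), n prime} tw x n log n`; replacing this by
`∑_{n ≤ 4x, n ≡ a (q), n rough} Λ(n) tw x n` costs at most the proper prime powers `≤ x`, `C √x log² x`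
(`tw x n = 0` unless `x/16 < n < x`, and there primes are rough: `> zx x`).  By IP this is
`∑_{i ≤ 2M} λ_i Dv x q a v_i η` with `v_i ∈ [x/16, x]`, `0 ≤ λ_i ≤ 1`; the same for `q = 1`.  NV: total
error at most `(2M+1) C η² x log x/φ ≤ C' x log x/(M φ) ≤ C' x (log x)^(-B-1)/φ`; and
`√x log² x ≤ x (log x)^(-B-1)/φ` as `φ ≤ q₀ exp((log x)^(1/3))`.  Divide by `log x`. -/
def StmtSW : Prop := ∀ q0 N B : ℕ, 1 ≤ q0 → ∃ x0 : ℕ, ∀ x : ℕ, x0 ≤ x →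
  ∃ p0 : ℕ, p0.Prime ∧ N ≤ p0 ∧ ¬ p0 ∣ q0 ∧
  ∀ d : ℕ, Squarefree d → ¬ p0 ∣ d → (d : ℝ) ≤ Real.exp (Real.log x ^ (1 / 3 : ℝ)) →
  ∀ a : ℕ, Nat.Coprime a (q0 * d) →
  |th x (q0 * d) a - th x 1 0 / (Nat.totient (q0 * d) : ℝ)|
    ≤ x / Real.log x ^ B / (Nat.totient (q0 * d) : ℝ)

/-! ## Part C: the sieve -/

/-- PACKET FP (fundamental lemma with weights, for the densities `1/(p-1)`; from `CR.StmtF0`).
Proof: that of `CR.StmtFW` (`Pool/Agent/Helper67/CR/FW.lean`; copy it) with `1/(p-1)` in place of `1/p`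
and `φ(d)` in place of `d` in the sums over `d`: `x_p = 1/(p-1) ≤ 1/2` because `p ≥ 3`,
`1 - x_p ≥ exp(-2 x_p)`, `x_p ≤ 2/p`. -/
def StmtFP : Prop := ∃ C : ℝ, 0 < C ∧ ∀ z b : ℕ, 1 ≤ z → ∀ P : Finset ℕ,
  (∀ p ∈ P, p.Prime ∧ 3 ≤ p ∧ p ≤ z) → ∃ l l' : ℕ → ℝ, (∀ d, |l d| ≤ 1 ∧ |l' d| ≤ 1) ∧
    (∀ d, l d ≠ 0 ∨ l' d ≠ 0 → d ∣ ∏ p ∈ P, p ∧ d ≤ z ^ (4 * b + 6)) ∧
    (∀ n : ℕ, 1 ≤ n →
      0 ≤ ∑ d ∈ n.divisors, l d - (if ∀ p ∈ P, ¬ p ∣ n then 1 else 0) ∧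
      ∑ d ∈ n.divisors, l d - (if ∀ p ∈ P, ¬ p ∣ n then 1 else 0) ≤ ∑ d ∈ n.divisors, l' d) ∧
    ∏ p ∈ P, (1 - 1 / ((p : ℝ) - 1))
      ≤ ∑ d ∈ Icc 1 (z ^ (4 * b + 6)), l d / (Nat.totient d : ℝ) ∧
    ∑ d ∈ Icc 1 (z ^ (4 * b + 6)), l' d / (Nat.totient d : ℝ)
      ≤ C * Real.exp (-b) * ∏ p ∈ P, (1 - 1 / ((p : ℝ) - 1))

/-- PACKET RK (Rankin).
Proof.  `α = 1/log u`, `u = (log x)^A`: for squarefree `d > Y = exp((log x)^(1/4))`: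
`1/φ(d) ≤ Y^(-α) d^α/φ(d)`, and the sum over the squarefree `d` with all prime factors `≤ u` of
`d^α/φ(d)` is `∏_{p ≤ u} (1 + p^α/(p-1)) ≤ exp(e ∑_{p ≤ u} 1/(p-1)) ≤ exp(e (1 + log u)) ≤ 16 u^3
= 16 (log x)^(3A)` (the trivial bound `∑_{p ≤ u} 1/(p-1) ≤ 1 + log u` suffices), against
`Y^(-α) = exp(-(log x)^(1/4)/(A log log x)) ≤ (log x)^(-B-3A-1)`. -/
def StmtRK : Prop := ∀ A B : ℕ, 1 ≤ A → ∃ x0 : ℕ, ∀ x : ℕ, x0 ≤ x → ∀ S : Finset ℕ,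
  (∀ d ∈ S, Squarefree d ∧ Real.exp (Real.log x ^ (1 / 4 : ℝ)) < d ∧
    ∀ p : ℕ, p.Prime → p ∣ d → (p : ℝ) ≤ Real.log x ^ A) →
  ∑ d ∈ S, 1 / (Nat.totient d : ℝ) ≤ 1 / Real.log x ^ B

/-- the squarefree `d ≤ D` with all prime factors in `(w, u]`, not divisible by `p₁` -/
noncomputable def T1 (w u p1 D : ℕ) : Finset ℕ :=
  (Icc 1 D).filter (fun d => Squarefree d ∧ (∀ p : ℕ, p.Prime → p ∣ d → w < p ∧ p ≤ u) ∧ ¬ p1 ∣ d)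

/-- PACKET E0 (splitting `d = d₁ d₂`).
Proof.  For squarefree `d` let `d₁ = ∏_{p ∣ d, p ≤ u} p`, `d₂ = ∏_{p ∣ d, p > u} p`, `d = d₁ d₂`; the map
`d ↦ (d₁, d₂)` is injective, `d₂ ≤ D/d₁`. -/
def StmtE0 : Prop := ∀ (w u p1 D : ℕ) (f : ℕ → ℝ), (∀ d, 0 ≤ f d) →
  ∑ d ∈ (Icc 1 D).filter (fun d => Squarefree d ∧ (∀ p : ℕ, p.Prime → p ∣ d → w < p) ∧ ¬ p1 ∣ d),
      f d ≤ ∑ d1 ∈ T1 w u p1 D, ∑ d2 ∈ SS u (D / d1 + 1), f (d1 * d2)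

/-- PACKET E1 (the moduli `Q d₁ d₂` relative to `Q d₁`; from `Helper76.TW.StmtRT`).
Proof.  Let `A` be from RT, `A₁ = 2A + B + 3`, `u = ⌊(log x)^(A₁)⌋`.  For `d₁ ∈ T1`: RT with `L = 1`,
`k = Q d₁`, `R = D/d₁`, the classes `D' ↦ a (d₁ D')` (`(k R)^4 ≤ (Q D)^4 ≤ x`; all primes dividing `Q d₁`
are `≤ u`): at most `(x/(Q d₁)) (log x)^(2A) (1/u + x^(-1/50))`; and `∑_{d₁ ≤ x} 1/d₁ ≤ 1 + log x`. -/
def StmtE1 : Prop := ∀ B : ℕ, ∃ A1 x0 : ℕ, 1 ≤ A1 ∧ ∀ x : ℕ, x0 ≤ x → ∀ Q w p1 D : ℕ, 1 ≤ Q →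
  (Q * D) ^ 4 ≤ x → (∀ p : ℕ, p.Prime → p ∣ Q → (p : ℝ) ≤ Real.log x) → (w : ℝ) ≤ Real.log x →
  ∀ a : ℕ → ℕ, (∀ d : ℕ, (∀ p : ℕ, p.Prime → p ∣ d → w < p) → Nat.Coprime (a d) (Q * d)) →
  ∑ d1 ∈ T1 w ⌊Real.log x ^ A1⌋₊ p1 D, ∑ d2 ∈ SS ⌊Real.log x ^ A1⌋₊ (D / d1 + 1),
      |th x (Q * d1 * d2) (a (d1 * d2)) - th x (Q * d1) (a (d1 * d2)) / (Nat.totient d2 : ℝ)|
    ≤ x / Q / Real.log x ^ B

/-- PACKET E2.
Proof.  `≤ ∏_{p ≤ x} (1 + 1/(p-1)) ≤ exp(2 ∑_{p ≤ x} 1/p) ≤ (log x)^C` (Mertens,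
`Pool.Agent.Helper31.LG.mertens` and dyadic summation, or `Pool.Agent.Helper69.LG.me`); `1/φ(d) =
∏_{p ∣ d} 1/(p-1)`. -/
def StmtE2 : Prop := ∃ C x0 : ℕ, ∀ x : ℕ, x0 ≤ x → ∀ S : Finset ℕ,
  (∀ d ∈ S, Squarefree d ∧ d ≤ x) → ∑ d ∈ S, 1 / (Nat.totient d : ℝ) ≤ Real.log x ^ C

/-- PACKET EV (the total error in the sieve; from SW, RK, E0, E1, E2).
Proof.  `Q = Qm q₀ p₁ w = q₀ ∏ p` over the primes `p ≤ w`, `p ≠ p₁`, `p ∤ q₀`.  Let `A₁` be from E1 with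
`B + 1`, `u = ⌊(log x)^(A₁)⌋`, `C` from E2, `p₁` from SW with `B + C + 2` in place of `B`, RK with `A₁` and
`B + C + 2`.  Split `d = d₁ d₂` by E0; `Q, d₁, d₂` are pairwise coprime.
For `d₁ ≤ Y = exp((log x)^(1/4))`:
`|th x (Q d) (a d) - th x 1 0/φ(Q d)| ≤ |th x (Q d₁ d₂) (a d) - th x (Q d₁) (a d)/φ(d₂)|
+ |th x (Q d₁) (a d) - th x 1 0/φ(Q d₁)|/φ(d₂)`.  The first terms: E1.  The second terms: `Q d₁ = q₀ d'`
with `d' = d₁ ∏ p` squarefree, `p₁ ∤ d'`, `d' ≤ 4^w exp((log x)^(1/4)) ≤ exp((log x)^(1/3))`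
(`w^5 ≤ log x`, `primorial_le_four_pow`), so SW applies: at most
`x/(log x)^(B+C+2)/(φ(Q) φ(d₁) φ(d₂))`, summed by E2 (`d₁ d₂ ≤ x` are different numbers).
For `d₁ > Y`: the term is `≤ x/(Q d) + 1 + x/φ(Q d) ≤ 3x/(φ(Q) φ(d₁) φ(d₂))` (`0 ≤ th x q a ≤ x/q + 1`,
`th x 1 0 ≤ x`, `Q d ≤ x`); sum over `d₁` by RK and over `d₂` by E2. -/
def StmtEV : Prop := ∀ q0 N B : ℕ, 1 ≤ q0 → ∃ x0 : ℕ, ∀ x : ℕ, x0 ≤ x →
  ∃ p1 : ℕ, p1.Prime ∧ N ≤ p1 ∧ ¬ p1 ∣ q0 ∧ ∀ w : ℕ, q0 ≤ w → (w : ℝ) ^ 5 ≤ Real.log x →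
  ∀ D : ℕ, (Qm q0 p1 w * D) ^ 4 ≤ x →
  ∀ a : ℕ → ℕ, (∀ d : ℕ, (∀ p : ℕ, p.Prime → p ∣ d → w < p) →
    Nat.Coprime (a d) (Qm q0 p1 w * d)) →
  ∑ d ∈ (Icc 1 D).filter (fun d => Squarefree d ∧ (∀ p : ℕ, p.Prime → p ∣ d → w < p) ∧ ¬ p1 ∣ d),
    |th x (Qm q0 p1 w * d) (a d) - th x 1 0 / (Nat.totient (Qm q0 p1 w * d) : ℝ)|
      ≤ x / Real.log x ^ B / (Nat.totient (Qm q0 p1 w) : ℝ)

/-- PACKET PV (the main factor).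
Proof.  `1 - 1/(p-1) = (1 - 1/p) (1 - 1/(p-1)²)`, `∏_{3 ≤ p ≤ z} (1 - 1/(p-1)²) ≥ 1/2` or so
(`∏_{k=2}^{K} (1 - 1/k²) ≥ 1/2`), `om w z ≥ c log w/log z` (`Pool.Agent.Helper88.CR.om_lower`),
`om y z ≤ C log y/log z` (`Pool.Agent.Helper37.PP.mp`). -/
def StmtPV : Prop := ∃ c : ℝ, 0 < c ∧ ∀ w y z : ℕ, 2 ≤ w → w ≤ z → 2 ≤ y → y ≤ z →
  c * (Real.log w / Real.log y) * om y z ≤ ∏ p ∈ pr w z, (1 - 1 / ((p : ℝ) - 1)) ∧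
  c / Real.log z ≤ om y z

/-- PACKET L2 (THE LOWER BOUND, `Helper76.TW.StmtL2`; helper57; from FP, EV, PV, `CG.StmtA1`
(`Pool.Agent.Helper61.CG.a1`)).
Proof.  Let `C` be from FP, `b` with `C e^(-b) ≤ 1/4`, `E₀ = 4 (4b + 6) + 9`.  `X = 32 x`, `p₁` from EV for
`X`, `B = 3`, `N = P₀`; `Q = Qm q₀ p₁ w`.  For large `x`: `w ≥ max q₀ 2` (as `log x ≤ w^D`),
`w^5 ≤ log X`, `w, y ≤ z`.  `P` the primes of `(w, z]` different from `p₁`; `l, l'` from FP,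
`D' = z^(4b+6)`, `(Q D')^4 ≤ X` (`z^E ≤ x`, `Q ≤ q₀ 4^w`).
For `d` with all prime factors `> w` (odd, prime to `Q`) let `a d` be a class with `a d ≡ a (Q)`,
`a d ≡ -2 (d)`; it is prime to `Q d`.  Then
`∑_{m ≡ a (Q), m ≤ X} pw X m [m + 2 prime to P] ≥ ∑_m pw X m ∑_{d ∣ m + 2} (l d - l' d)
= ∑_d (l d - l' d) th X (Q d) (a d) ≥ (th X 1 0/φ(Q)) ∑_d (l d - l' d)/φ(d) - 2 X/(φ(Q) (log X)^3)`
`≥ (3/4) (th X 1 0/φ(Q)) ∏_{p ∈ P} (1 - 1/(p-1)) - 2 X/(φ(Q) (log X)^3)`; the product over `P` is at least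
the product over `pr w z`, PV, `log y ≤ 2 log log x ≤ 2 D log w`; `th X 1 0 ≥ c X/log X` (`StmtA1` with
`j = 0`); `om y z ≥ c/log z`, so the error term is harmless. -/
def StmtL2 : Prop := Pool.Agent.Helper76.TW.StmtL2

end Pool.Agent.Helper57.TW
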