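import Pool.Agent.Helper57.TW.L2
import Pool.Agent.Helper3.TW.NB
import Pool.Agent.Helper15.TW.NV
import Pool.Agent.Helper95.TW.PG
import Pool.Agent.Helper86.TW.XP
import Pool.Agent.Helper48.TW.RK
import Pool.Agent.Helper50.TW.E1
import Pool.Agent.Helper12.TW.LC
import Pool.Agent.Helper22.TW.CN
import Pool.Agent.Helper53.TW.NA
import Pool.Agent.Helper35.TW.FP
import Pool.Agent.Helper91.TW.IP
import Pool.Agent.Helper69.TW.FN
import Pool.Agent.Helper64.TW.SW
import Pool.Agent.Helper32.TW.FX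
import Pool.Agent.Helper32.TW.PV
import Pool.Agent.Helper18.TW.E0
import Pool.Agent.Helper56.TW.E2
import Pool.Agent.Helper66.TW.EV
import Pool.Agent.Helper44.TW.TN
import Pool.Agent.Helper23.TW.Names
import Pool.Agent.Helper88.CR.MainA

/-! # Block B of T74: assembly of `StmtL2` -/

set_option autoImplicit false

namespace Pool.Agent.Helper57.TW

theorem mLC : StmtLC :=
  Pool.Agent.Helper12.TW.lc Pool.Agent.Helper88.CR.mCH Pool.Agent.Helper88.CR.mZB
    Pool.Agent.Helper8.CR.p4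

theorem mFX : StmtFX :=
  Pool.Agent.Helper32.TW.fx Pool.Agent.Helper23.TW.mR0 mLC Pool.Agent.Helper88.CR.mCH

theorem mXP : StmtXP := Pool.Agent.Helper86.TW.xp mFX Pool.Agent.Helper88.CR.mLO

theorem mPG : StmtPG :=
  Pool.Agent.Helper95.TW.pg Pool.Agent.Helper88.CR.mSC Pool.Agent.Helper88.CR.mCH
    Pool.Agent.Helper8.CR.al Pool.Agent.Helper8.CR.pf mXP

theorem mRK : StmtRK := Pool.Agent.Helper48.TW.rk

theorem mE0 : StmtE0 := Pool.Agent.Helper18.TW.e0

theorem mE1 : StmtE1 := Pool.Agent.Helper50.TW.e1 Pool.Agent.Helper23.TW.mRT76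

theorem mE2 : StmtE2 := Pool.Agent.Helper56.TW.e2

theorem mFP : StmtFP := Pool.Agent.Helper35.TW.fp Pool.Agent.Helper11.CR.f0

theorem mPV : StmtPV := Pool.Agent.Helper32.TW.pv

theorem mTN : StmtTN := Pool.Agent.Helper44.TW.tn

theorem mNB : StmtNB :=
  Pool.Agent.Helper3.TW.nb mPG Pool.Agent.Helper69.TW.fn mTN Pool.Agent.Helper22.TW.cn

theorem mNV : StmtNV :=
  Pool.Agent.Helper15.TW.nv Pool.Agent.Helper53.TW.na mNB mTN

theorem mSW : StmtSW := Pool.Agent.Helper64.TW.sw mNV Pool.Agent.Helper91.TW.ip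

theorem mEV : StmtEV := Pool.Agent.Helper66.TW.ev mSW mRK mE0 mE1 mE2

/-- the output of block B -/
theorem mL2 : Pool.Agent.Helper76.TW.StmtL2 := l2 mFP mEV mPV Pool.Agent.Helper61.CG.a1

end Pool.Agent.Helper57.TW
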