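import Pool.Agent.Helper57.TW.L2a
import Pool.Agent.Helper88.TU.Size

/-! # Packet L2: the lower bound -/

set_option autoImplicit false

open Finset Filter Topology

open scoped Classical

namespace Pool.Agent.Helper57.TW

open Pool.Agent.Helper88.CG (tw pw th)
open Pool.Agent.Helper88.PP (SS pr om)
open Pool.Agent.Helper88.TU (Su)
open Pool.Agent.Helper76.TW (Qm)

theorem Qm_prime_le {q p1 w p : ℕ} (hq : 1 ≤ q) (hqw : q ≤ w) (hp : p.Prime)
    (h : p ∣ Qm q p1 w) : p ≤ w := by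
  unfold Pool.Agent.Helper76.TW.Qm at h
  rcases (Nat.Prime.dvd_mul hp).1 h with h1 | h1
  · exact (Nat.le_of_dvd (by omega) h1).trans hqw
  · rw [Prime.dvd_finsetProd_iff hp.prime] at h1
    obtain ⟨r, hr, hpr⟩ := h1
    rw [mem_filter, mem_Icc] at hr
    exact (Nat.le_of_dvd (by omega) hpr).trans hr.1.2

theorem Qm_pos {q p1 w : ℕ} (hq : 1 ≤ q) : 1 ≤ Qm q p1 w := by
  unfold Pool.Agent.Helper76.TW.Qm
  refine Nat.mul_pos hq (Finset.prod_pos fun p hp => ?_)
  exact ((mem_filter.1 hp).2.1).pos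

theorem Qm_le {q p1 w : ℕ} : Qm q p1 w ≤ q * 4 ^ w := by
  unfold Pool.Agent.Helper76.TW.Qm
  refine Nat.mul_le_mul le_rfl (le_trans ?_ (primorial_le_four_pow w))
  unfold primorial
  refine Finset.prod_le_prod_of_subset_of_one_le' ?_ ?_
  · intro p hp
    rw [mem_filter, mem_Icc] at hp
    rw [mem_filter, mem_range]
    exact ⟨by omega, hp.2.1⟩
  · intro p hp _
    exact (mem_filter.1 hp).2.one_le

theorem Qm_coprime {q p1 w d : ℕ} (hq : 1 ≤ q) (hqw : q ≤ w)
    (hd : ∀ p : ℕ, p.Prime → p ∣ d → w < p) : Nat.Coprime (Qm q p1 w) d := by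
  refine Nat.coprime_of_dvd fun p hp h1 h2 => ?_
  have := Qm_prime_le hq hqw hp h1
  have := hd p hp h2
  omega

theorem one_le_of_primes {w d : ℕ} (hw : 2 ≤ w) (hd : ∀ p : ℕ, p.Prime → p ∣ d → w < p) :
    1 ≤ d := by
  rcases Nat.eq_zero_or_pos d with h | h
  · have := hd 2 Nat.prime_two (by rw [h]; exact dvd_zero 2)
    omega
  · exact h

theorem th_one_ge {c1 : ℝ} {X : ℕ}
    (h : c1 * (X / Real.log X) ≤ ∑ n ∈ Ioc (X / 32) X, pw X (n + 0)) :
    c1 * (X / Real.log X) ≤ th X 1 0 := by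
  refine h.trans ?_
  unfold Pool.Agent.Helper88.CG.th
  refine sum_le_sum_of_subset_of_nonneg ?_ (fun n _ _ => pw_nonneg X n)
  intro n hn
  rw [mem_Ioc] at hn
  rw [mem_filter, mem_Icc]
  exact ⟨⟨by omega, hn.2⟩, Nat.modEq_one⟩

theorem prod_PP2_ge {w z p1 : ℕ} (hw : 2 ≤ w) :
    ∏ p ∈ pr w z, (1 - 1 / ((p : ℝ) - 1)) ≤ ∏ p ∈ PP2 w z p1, (1 - 1 / ((p : ℝ) - 1)) := by
  have hb : ∀ p ∈ pr w z, 0 ≤ 1 - 1 / ((p : ℝ) - 1) ∧ 1 - 1 / ((p : ℝ) - 1) ≤ 1 := by
    intro p hp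
    unfold Pool.Agent.Helper88.PP.pr at hp
    rw [mem_filter, mem_Ioc] at hp
    have h3 : (3 : ℝ) ≤ p := by exact_mod_cast (by omega : 3 ≤ p)
    constructor
    · rw [sub_nonneg, div_le_one (by linarith)]
      linarith
    · have : 0 ≤ 1 / ((p : ℝ) - 1) := by
        apply div_nonneg (by norm_num); linarith
      linarith
  have hsub : PP2 w z p1 ⊆ pr w z := filter_subset _ _
  rw [← prod_sdiff hsub]
  refine mul_le_of_le_one_left (prod_nonneg fun p hp => (hb p (hsub hp)).1) ?_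
  exact prod_le_one (fun p hp => (hb p (Finset.sdiff_subset hp)).1)
    (fun p hp => (hb p (Finset.sdiff_subset hp)).2)

/-- the sieve with the error term -/
theorem sieve_main (X Q a w z p1 D : ℕ) (hp1 : p1.Prime)
    (hQ : ∀ d : ℕ, (∀ p : ℕ, p.Prime → p ∣ d → w < p) → Nat.Coprime Q d) (l l' : ℕ → ℝ)
    (hl : ∀ d, |l d| ≤ 1 ∧ |l' d| ≤ 1)
    (hsup : ∀ d, l d ≠ 0 ∨ l' d ≠ 0 → d ∣ ∏ p ∈ PP2 w z p1, p ∧ d ≤ D)
    (hpt : ∀ n : ℕ, 1 ≤ n →
      ∑ d ∈ n.divisors, l d - (if ∀ p ∈ PP2 w z p1, ¬ p ∣ n then 1 else 0)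
        ≤ ∑ d ∈ n.divisors, l' d) (R V ε : ℝ)
    (hR : ∑ d ∈ (Icc 1 D).filter (gd w p1),
      |th X (Q * d) (cl Q a d) - th X 1 0 / (Nat.totient (Q * d) : ℝ)| ≤ R)
    (hV : V ≤ ∑ d ∈ Icc 1 D, l d / (Nat.totient d : ℝ))
    (hV' : ∑ d ∈ Icc 1 D, l' d / (Nat.totient d : ℝ) ≤ ε * V) :
    th X 1 0 / (Nat.totient Q : ℝ) * ((1 - ε) * V) - 2 * R
      ≤ ∑ m ∈ (Icc 1 X).filter (fun m => m ≡ a [MOD Q] ∧
          ∀ p ∈ pr w z, p ≠ p1 → ¬ p ∣ m + 2), pw X m := by
  refine le_trans ?_ (sieve_lb X Q a w z p1 D hp1 l l' hsup hpt)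
  have hgd : ∀ d ∈ (Icc 1 D).filter (gd w p1), 1 ≤ d ∧ Nat.Coprime Q d := by
    intro d hd
    rw [mem_filter] at hd
    exact ⟨(mem_Icc.1 hd.1).1, hQ d hd.2.2.1⟩
  have hTH : 0 ≤ th X 1 0 := by
    unfold Pool.Agent.Helper88.CG.th
    exact sum_nonneg fun n _ => pw_nonneg X n
  -- the main term
  have hfull : ∀ g : ℕ → ℝ, (∀ d, g d ≠ 0 → l d ≠ 0 ∨ l' d ≠ 0) →
      ∑ d ∈ (Icc 1 D).filter (gd w p1), g d / (Nat.totient d : ℝ)
        = ∑ d ∈ Icc 1 D, g d / (Nat.totient d : ℝ) := by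
    intro g hg
    refine sum_subset (filter_subset _ _) fun d hd hd' => ?_
    by_contra hne
    have h1 : g d ≠ 0 := by
      intro h
      rw [h, zero_div] at hne
      exact hne rfl
    exact hd' (mem_filter.2 ⟨hd, gd_of_dvd hp1 (hsup d (hg d h1)).1⟩)
  have hmain : (1 - ε) * V ≤ ∑ d ∈ (Icc 1 D).filter (gd w p1),
      (l d - l' d) / (Nat.totient d : ℝ) := by
    have h1 := hfull l (fun d h => Or.inl h)
    have h2 := hfull l' (fun d h => Or.inr h)
    have h3 : ∑ d ∈ (Icc 1 D).filter (gd w p1), (l d - l' d) / (Nat.totient d : ℝ)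
        = ∑ d ∈ Icc 1 D, l d / (Nat.totient d : ℝ) - ∑ d ∈ Icc 1 D, l' d / (Nat.totient d : ℝ) := by
      rw [← h1, ← h2, ← sum_sub_distrib]
      exact sum_congr rfl fun d _ => by ring
    rw [h3]
    linarith
  have hterm : ∀ d ∈ (Icc 1 D).filter (gd w p1),
      th X 1 0 / (Nat.totient Q : ℝ) * ((l d - l' d) / (Nat.totient d : ℝ))
        - 2 * |th X (Q * d) (cl Q a d) - th X 1 0 / (Nat.totient (Q * d) : ℝ)|
      ≤ (l d - l' d) *
        ∑ m ∈ (Icc 1 X).filter (fun m => m ≡ a [MOD Q] ∧ d ∣ m + 2), pw X m := by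
    intro d hd
    obtain ⟨hd1, hcop⟩ := hgd d hd
    rw [th_cl hd1 hcop]
    have e1 : th X 1 0 / (Nat.totient (Q * d) : ℝ)
        = th X 1 0 / (Nat.totient Q : ℝ) / (Nat.totient d : ℝ) := by
      rw [Nat.totient_mul hcop]
      push_cast
      rw [div_div]
    rw [e1]
    set u := th X 1 0 / (Nat.totient Q : ℝ) with hu
    set v := th X (Q * d) (cl Q a d) with hv
    have h1 : |l d - l' d| ≤ 2 := by
      have := abs_sub (l d) (l' d)
      have h2 := (hl d).1
      have h3 := (hl d).2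
      linarith
    have h2 : -(2 * |v - u / (Nat.totient d : ℝ)|) ≤ (l d - l' d) * (v - u / (Nat.totient d : ℝ)) := by
      have h3 := neg_abs_le ((l d - l' d) * (v - u / (Nat.totient d : ℝ)))
      rw [abs_mul] at h3
      have h4 := mul_le_mul_of_nonneg_right h1 (abs_nonneg (v - u / (Nat.totient d : ℝ)))
      linarith
    have h5 : (l d - l' d) * v = u * ((l d - l' d) / (Nat.totient d : ℝ))
        + (l d - l' d) * (v - u / (Nat.totient d : ℝ)) := by ring
    rw [h5]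
    linarith
  refine le_trans ?_ (sum_le_sum hterm)
  rw [sum_sub_distrib, ← mul_sum, ← mul_sum]
  have h6 : 0 ≤ th X 1 0 / (Nat.totient Q : ℝ) := by positivity
  have h7 := mul_le_mul_of_nonneg_left hmain h6
  linarith

theorem l2 (hFP : StmtFP) (hEV : StmtEV) (hPV : StmtPV)
    (hA1 : Pool.Agent.Helper88.CG.StmtA1) : StmtL2 := by
  obtain ⟨C, hC, hFP⟩ := hFP
  obtain ⟨c2, hc2, hPV⟩ := hPV
  obtain ⟨c1, hc1, x1, hA1⟩ := hA1
  obtain ⟨E1, hsize⟩ := Pool.Agent.Helper88.TU.size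
  obtain ⟨b, hb⟩ : ∃ b : ℕ, C * Real.exp (-(b : ℝ)) ≤ 1 / 4 := by
    have h1 : Tendsto (fun b : ℕ => C * Real.exp (-(b : ℝ))) atTop (𝓝 (C * 0)) :=
      Tendsto.const_mul C (Real.tendsto_exp_neg_atTop_nhds_zero.comp tendsto_natCast_atTop_atTop)
    rw [mul_zero] at h1
    obtain ⟨b, hb⟩ := (h1.eventually (gt_mem_nhds (by norm_num : (0 : ℝ) < 1 / 4))).exists
    exact ⟨b, hb.le⟩
  intro D q hq
  refine ⟨c1 * c2 / (D + 1), by positivity, fun P0 => ?_⟩
  refine ⟨max E1 (4 * (4 * b + 6) + 9), fun E hE => ?_⟩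
  have hE1 : E1 ≤ E := (le_max_left _ _).trans hE
  have hEb : 4 * (4 * b + 6) + 9 ≤ E := (le_max_right _ _).trans hE
  obtain ⟨x2, hEV⟩ := hEV q P0 3 hq
  -- the size of `log x`
  obtain ⟨x3, hx3⟩ : ∃ x3 : ℕ, ∀ x : ℕ, x3 ≤ x →
      ((24 * E + q + 4 : ℕ) : ℝ) ^ D < Real.log x ∧ 64 ≤ Real.log x ∧
      32 * (D + 1) / (c1 * c2 ^ 2) ≤ Real.log x := by
    have h1 : Tendsto (fun x : ℕ => Real.log x) atTop atTop :=
      Real.tendsto_log_atTop.comp tendsto_natCast_atTop_atTop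
    have h2 := (h1.eventually_gt_atTop (((24 * E + q + 4 : ℕ) : ℝ) ^ D)).and
      ((h1.eventually_ge_atTop 64).and (h1.eventually_ge_atTop (32 * (D + 1) / (c1 * c2 ^ 2))))
    exact eventually_atTop.1 h2
  refine ⟨x1 + x2 + x3 + 1, fun x hx => ?_⟩
  obtain ⟨hL1, hL2, hL3⟩ := hx3 x (by omega)
  obtain ⟨p1, hp1, hp1N, hp1q, hEV⟩ := hEV (32 * x) (by omega)
  refine ⟨p1, hp1, hp1N, fun z y w hSu hw10 hwD a ha _ => ?_⟩
  obtain ⟨s1, s2, s3, s4, s5, s6, s7, s8, s9, s10, s11, s12, s13, s14⟩ := hsize E z x y hE1 hSu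
  obtain ⟨t1, t2, t3, t4, t5⟩ := hSu
  set Q := Qm q p1 w with hQdef
  set L := Real.log x with hLdef
  -- `w` is large
  have hwbig : 24 * E + q + 4 < w := by
    by_contra h
    push Not at h
    have h1 : (w : ℝ) ^ D ≤ ((24 * E + q + 4 : ℕ) : ℝ) ^ D :=
      pow_le_pow_left₀ (Nat.cast_nonneg _) (by exact_mod_cast h) D
    linarith
  have hw2 : 2 ≤ w := by omega
  have hqw : q ≤ w := by omega
  have hw1r : (1 : ℝ) ≤ w := by exact_mod_cast (by omega : 1 ≤ w)
  have hwL : (w : ℝ) ≤ L := by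
    refine le_trans ?_ hw10
    calc (w : ℝ) = (w : ℝ) ^ 1 := (pow_one _).symm
      _ ≤ (w : ℝ) ^ 10 := pow_le_pow_right₀ hw1r (by norm_num)
  have hwy : w ≤ y := by exact_mod_cast hwL.trans t4
  have hwz : w ≤ z := hwy.trans s9
  have hx1 : 1 ≤ x := by omega
  have hxr : (1 : ℝ) ≤ x := by exact_mod_cast hx1
  set X := 32 * x with hX
  have hXr : (X : ℝ) = 32 * x := by rw [hX]; push_cast; ring
  have hlogX : Real.log X = Real.log 32 + L := by
    rw [hXr, Real.log_mul (by norm_num) (by positivity)]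
  have hlog32 : 0 ≤ Real.log 32 ∧ Real.log 32 ≤ 31 := by
    refine ⟨Real.log_nonneg (by norm_num), ?_⟩
    have := Real.log_le_sub_one_of_pos (by norm_num : (0 : ℝ) < 32)
    linarith
  have hLX : L ≤ Real.log X := by rw [hlogX]; linarith [hlog32.1]
  have hLX2 : Real.log X ≤ 2 * L := by rw [hlogX]; linarith [hlog32.2]
  have hLpos : 0 < L := by linarith
  -- the level
  have hQ1 : 1 ≤ Q := Qm_pos hq
  have hQ4 : Q ^ 4 ≤ z := by
    have h1 : (Q : ℝ) ≤ q * 4 ^ w := by exact_mod_cast (Qm_le : Qm q p1 w ≤ q * 4 ^ w)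
    have hQr : (0 : ℝ) < Q := by exact_mod_cast hQ1
    have hqr : (0 : ℝ) < q := by exact_mod_cast hq
    have h2 : Real.log ((Q : ℝ) ^ 4) ≤ Real.log z := by
      rw [Real.log_pow]
      have h3 : Real.log Q ≤ Real.log q + w * Real.log 4 := by
        have h4 := Real.log_le_log hQr h1
        rwa [Real.log_mul hqr.ne' (by positivity), Real.log_pow] at h4
      have h5 : Real.log q ≤ w := by
        have h6 := Real.log_le_sub_one_of_pos hqr
        have h7 : (q : ℝ) ≤ w := by exact_mod_cast hqw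
        linarith
      have h6 : Real.log 4 ≤ 3 / 2 := by
        have h7 : Real.log 4 = 2 * Real.log 2 := by
          rw [show (4 : ℝ) = 2 ^ 2 by norm_num, Real.log_pow]; norm_num
        have := Real.log_two_lt_d9
        linarith
      have h7 : (w : ℝ) * Real.log 4 ≤ w * (3 / 2) := mul_le_mul_of_nonneg_left h6 (by linarith)
      have hEr : (0 : ℝ) < E := by exact_mod_cast (by omega : 0 < E)
      -- `10 w ≤ L/(2E)`
      have h8 : 20 * (E : ℝ) * w ≤ L := by
        have h9 : (20 * (E : ℝ)) ≤ w := by exact_mod_cast (by omega : 20 * E ≤ w)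
        have h10 : (w : ℝ) * w ≤ (w : ℝ) ^ 10 := by
          rw [← pow_two]
          exact pow_le_pow_right₀ hw1r (by norm_num)
        calc 20 * (E : ℝ) * w ≤ w * w := mul_le_mul_of_nonneg_right h9 (by linarith)
          _ ≤ L := h10.trans hw10
      have h11 : 10 * (w : ℝ) ≤ Real.log z := by
        by_contra hcon
        push Not at hcon
        have h12 : 2 * (E * Real.log z) < 2 * (E * (10 * (w : ℝ))) := by
          have := mul_lt_mul_of_pos_left hcon hEr
          linarith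
        linarith
      push_cast
      linarith
    have h13 : (0 : ℝ) < z := by exact_mod_cast (by omega : 0 < z)
    have h14 := (Real.log_le_log_iff (by positivity) h13).1 h2
    exact_mod_cast h14
  have hlevel : (Q * z ^ (4 * b + 6)) ^ 4 ≤ X := by
    have h1 : (Q * z ^ (4 * b + 6)) ^ 4 = Q ^ 4 * z ^ (4 * (4 * b + 6)) := by
      rw [mul_pow, ← pow_mul]
      congr 2
      ring
    rw [h1]
    calc Q ^ 4 * z ^ (4 * (4 * b + 6)) ≤ z * z ^ (4 * (4 * b + 6)) := Nat.mul_le_mul_right _ hQ4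
      _ = z ^ (4 * (4 * b + 6) + 1) := by rw [pow_succ]; ring
      _ ≤ z ^ E := Nat.pow_le_pow_right (by omega) (by omega)
      _ ≤ x := t2
      _ ≤ X := by omega
  have hw5 : (w : ℝ) ^ 5 ≤ Real.log X := by
    calc (w : ℝ) ^ 5 ≤ (w : ℝ) ^ 10 := pow_le_pow_right₀ hw1r (by norm_num)
      _ ≤ L := hw10
      _ ≤ Real.log X := hLX
  have hQd : ∀ d : ℕ, (∀ p : ℕ, p.Prime → p ∣ d → w < p) → Nat.Coprime Q d :=
    fun d hd => Qm_coprime hq hqw hd
  have hR := hEV w hqw hw5 (z ^ (4 * b + 6)) hlevel (cl Q a) (fun d hd =>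
    cl_coprime hw2 (one_le_of_primes hw2 hd) (hQd d hd) ha hd)
  have hR' : ∑ d ∈ (Icc 1 (z ^ (4 * b + 6))).filter (gd w p1),
      |th X (Q * d) (cl Q a d) - th X 1 0 / (Nat.totient (Q * d) : ℝ)|
      ≤ X / Real.log X ^ 3 / (Nat.totient Q : ℝ) := by
    refine le_trans (le_of_eq (sum_congr ?_ fun _ _ => rfl)) hR
    ext d
    rw [mem_filter, mem_filter]
    exact Iff.rfl
  obtain ⟨l, l', f1, f2, f3, f4, f5⟩ := hFP z b (by omega) (PP2 w z p1) (fun p hp => by
    have h := mem_PP2.1 hp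
    exact ⟨h.2.1, by omega, h.1.2⟩)
  have hmain := sieve_main X Q a w z p1 (z ^ (4 * b + 6)) hp1 hQd l l' f1 f2
    (fun n hn => (f3 n hn).2) _ _ (C * Real.exp (-(b : ℝ))) hR' f4 f5
  refine le_trans ?_ hmain
  -- the numbers
  obtain ⟨g1, g2⟩ := hPV w y z hw2 hwz s7 s9
  have hV := g1.trans (prod_PP2_ge (z := z) (p1 := p1) hw2)
  set V := ∏ p ∈ PP2 w z p1, (1 - 1 / ((p : ℝ) - 1)) with hVdef
  have hTH := th_one_ge (hA1 X (by omega) 0 (by
    push_cast
    positivity))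
  set TH := th X 1 0 with hTHdef
  have hφ : (0 : ℝ) < (Nat.totient Q : ℝ) := by exact_mod_cast Nat.totient_pos.2 (by omega)
  set φ := (Nat.totient Q : ℝ) with hφdef
  have hD0 : 1 ≤ D := by
    rcases Nat.eq_zero_or_pos D with h | h
    · rw [h, pow_zero] at hwD
      linarith
    · exact h
  have hDr : (1 : ℝ) ≤ D := by exact_mod_cast hD0
  have hlogw : Real.log L ≤ D * Real.log w := by
    rw [← Real.log_pow]
    exact Real.log_le_log hLpos hwD
  have hyr : (2 : ℝ) ≤ y := by exact_mod_cast s7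
  have hlogy : Real.log y ≤ 2 * Real.log L := by
    rw [← Real.log_rpow hLpos, show ((2 : ℝ)) = ((2 : ℕ) : ℝ) by norm_num, Real.rpow_natCast]
    exact Real.log_le_log (by linarith) t5
  have hlogypos : 0 < Real.log y := Real.log_pos (by linarith)
  have hratio : 1 / (2 * (D : ℝ)) ≤ Real.log w / Real.log y := by
    rw [div_le_div_iff₀ (by positivity) hlogypos]
    nlinarith only [hlogw, hlogy, hlogypos, hDr]
  have hlogz : Real.log z ≤ L := by
    have h13 : (0 : ℝ) < z := by exact_mod_cast (by omega : 0 < z)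
    exact Real.log_le_log h13 (by exact_mod_cast s11)
  have hlogzpos : 0 < Real.log z := by
    have : (64 : ℝ) ≤ z := by exact_mod_cast s10
    exact Real.log_pos (by linarith)
  have hom : c2 / L ≤ om y z := by
    refine le_trans ?_ g2
    exact div_le_div_of_nonneg_left hc2.le hlogzpos hlogz
  have hom0 : 0 < om y z := lt_of_lt_of_le (by positivity) hom
  set o := om y z with hodef
  have hV2 : c2 / (2 * D) * o ≤ V := by
    refine le_trans ?_ hV
    have h1 := mul_le_mul_of_nonneg_left hratio hc2.le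
    have h2 := mul_le_mul_of_nonneg_right h1 hom0.le
    calc c2 / (2 * D) * o = c2 * (1 / (2 * D)) * o := by ring
      _ ≤ _ := h2
  have hV0 : 0 ≤ V := le_trans (by positivity) hV2
  have hlX : 0 < Real.log X := by linarith
  -- main term
  have hXpos : (0 : ℝ) < X := by rw [hXr]; positivity
  have hM : X / Real.log X / φ * (3 / 4 * c1 * (c2 / (2 * D) * o))
      ≤ TH / φ * ((1 - C * Real.exp (-(b : ℝ))) * V) := by
    have h1 : c1 * (X / Real.log X) / φ ≤ TH / φ := div_le_div_of_nonneg_right hTH hφ.le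
    have h2 : 3 / 4 * V ≤ (1 - C * Real.exp (-(b : ℝ))) * V :=
      mul_le_mul_of_nonneg_right (by linarith) hV0
    have h3 : 3 / 4 * (c2 / (2 * D) * o) ≤ 3 / 4 * V := by linarith
    have h4 : 0 ≤ c1 * (X / Real.log X) / φ := by positivity
    calc X / Real.log X / φ * (3 / 4 * c1 * (c2 / (2 * D) * o))
        = c1 * (X / Real.log X) / φ * (3 / 4 * (c2 / (2 * D) * o)) := by ring
      _ ≤ TH / φ * ((1 - C * Real.exp (-(b : ℝ))) * V) :=
        mul_le_mul h1 (h3.trans h2) (by positivity) (h4.trans h1)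
  -- error term
  have hErr : 2 * (X / Real.log X ^ 3 / φ) ≤ X / Real.log X / φ * (1 / 4 * c1 * (c2 / (2 * D) * o)) := by
    have h1 : 2 / Real.log X ^ 2 ≤ 1 / 4 * c1 * (c2 / (2 * D) * o) := by
      have h2 : 1 / 4 * c1 * (c2 / (2 * D) * (c2 / L)) ≤ 1 / 4 * c1 * (c2 / (2 * D) * o) := by
        have : 0 ≤ 1 / 4 * c1 * (c2 / (2 * D)) := by positivity
        nlinarith only [this, hom]
      refine le_trans ?_ h2
      have h3 : 2 / Real.log X ^ 2 ≤ 2 / L ^ 2 :=
        div_le_div_of_nonneg_left (by norm_num) (by positivity) (pow_le_pow_left₀ hLpos.le hLX 2)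
      refine h3.trans ?_
      have h4 : 32 * ((D : ℝ) + 1) ≤ L * (c1 * c2 ^ 2) := by
        rwa [div_le_iff₀ (by positivity)] at hL3
      have h5 : 1 / 4 * c1 * (c2 / (2 * D) * (c2 / L)) = (c1 * c2 ^ 2) / (8 * D * L) := by
        field_simp
        norm_num
      rw [h5, div_le_div_iff₀ (by positivity) (by positivity)]
      nlinarith only [h4, hLpos, hDr]
    have h6 : 2 * (X / Real.log X ^ 3 / φ) = X / Real.log X / φ * (2 / Real.log X ^ 2) := by
      field_simp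
    rw [h6]
    exact mul_le_mul_of_nonneg_left h1 (by positivity)
  have hfin : c1 * c2 / (D + 1) * (x / (φ * L) * o)
      ≤ X / Real.log X / φ * (1 / 2 * c1 * (c2 / (2 * D) * o)) := by
    have h1 : 16 * (x / L) ≤ X / Real.log X := by
      rw [← mul_div_assoc, div_le_div_iff₀ hLpos hlX]
      have h0 : (X : ℝ) * L = 32 * x * L := by rw [hXr]
      rw [h0]
      nlinarith only [hLX2, hxr]
    have h2 : 16 * (x / L) / φ ≤ X / Real.log X / φ := div_le_div_of_nonneg_right h1 hφ.le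
    have h3 : c1 * c2 / (D + 1) * (x / (φ * L) * o) = (x / L) / φ * (c1 * c2 / (D + 1) * o) := by
      field_simp
    rw [h3]
    have h4 : c1 * c2 / (D + 1) * o ≤ 16 * (1 / 2 * c1 * (c2 / (2 * D) * o)) := by
      have h5 : 16 * (1 / 2 * c1 * (c2 / (2 * D) * o)) = (4 * (c1 * c2) / D) * o := by
        field_simp
        norm_num
      rw [h5]
      refine mul_le_mul_of_nonneg_right ?_ hom0.le
      have hcc : 0 < c1 * c2 := by positivity
      rw [div_le_div_iff₀ (by positivity) (by positivity)]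
      nlinarith only [hcc, hDr]
    have h7 : (0 : ℝ) ≤ x / L / φ := by positivity
    calc (x / L) / φ * (c1 * c2 / (D + 1) * o)
        ≤ (x / L) / φ * (16 * (1 / 2 * c1 * (c2 / (2 * D) * o))) :=
          mul_le_mul_of_nonneg_left h4 h7
      _ = 16 * (x / L) / φ * (1 / 2 * c1 * (c2 / (2 * D) * o)) := by ring
      _ ≤ _ := mul_le_mul_of_nonneg_right h2 (by positivity)
  have hsplit : X / Real.log X / φ * (3 / 4 * c1 * (c2 / (2 * D) * o))
      = X / Real.log X / φ * (1 / 2 * c1 * (c2 / (2 * D) * o))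
        + X / Real.log X / φ * (1 / 4 * c1 * (c2 / (2 * D) * o)) := by ring
  linarith only [hM, hErr, hfin, hsplit]

end Pool.Agent.Helper57.TW
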