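import Pool.Agent.Helper57.TW.Goals
import Pool.Agent.Helper67.CR.FW

/-! # Packet L2, part a: the sieve inequality and the classes -/

set_option autoImplicit false

open Finset Filter Topology

open scoped Classical

namespace Pool.Agent.Helper57.TW

open Pool.Agent.Helper88.CG (tw pw th)
open Pool.Agent.Helper88.PP (SS pr om)
open Pool.Agent.Helper76.TW (Qm)

/-- the moduli of the sieve -/
def gd (w p1 d : ℕ) : Prop := Squarefree d ∧ (∀ p : ℕ, p.Prime → p ∣ d → w < p) ∧ ¬ p1 ∣ d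

/-- the primes of the sieve -/
noncomputable def PP2 (w z p1 : ℕ) : Finset ℕ := (pr w z).filter (fun p => p ≠ p1)

theorem mem_PP2 {w z p1 p : ℕ} : p ∈ PP2 w z p1 ↔ (w < p ∧ p ≤ z) ∧ p.Prime ∧ p ≠ p1 := by
  unfold PP2 Pool.Agent.Helper88.PP.pr
  rw [mem_filter, mem_filter, mem_Ioc]
  tauto

theorem pw_nonneg (x n : ℕ) : 0 ≤ pw x n := by
  unfold Pool.Agent.Helper88.CG.pw Pool.Agent.Helper88.CG.tw
  split_ifs
  · exact mul_nonneg (le_max_left _ _)
      (div_nonneg (Real.log_natCast_nonneg n) (Real.log_natCast_nonneg x))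
  · exact le_rfl

theorem gd_of_dvd {w z p1 d : ℕ} (hp1 : p1.Prime) (hd : d ∣ ∏ p ∈ PP2 w z p1, p) : gd w p1 d := by
  have hP : ∀ p ∈ PP2 w z p1, p.Prime := fun p hp => (mem_PP2.1 hp).2.1
  refine ⟨(Pool.Agent.Helper67.CR.sq_prod hP).squarefree_of_dvd hd, fun p hp hpd => ?_, fun h => ?_⟩
  · have h1 := hpd.trans hd
    rw [Prime.dvd_finsetProd_iff hp.prime] at h1
    obtain ⟨q, hq, hpq⟩ := h1
    have h2 := (Nat.prime_dvd_prime_iff_eq hp (hP q hq)).1 hpq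
    rw [h2]
    exact (mem_PP2.1 hq).1.1
  · have h1 := h.trans hd
    rw [Prime.dvd_finsetProd_iff hp1.prime] at h1
    obtain ⟨q, hq, hpq⟩ := h1
    have h2 := (Nat.prime_dvd_prime_iff_eq hp1 (hP q hq)).1 hpq
    exact (mem_PP2.1 hq).2.2 h2.symm

/-- the sieve inequality -/
theorem sieve_lb (X Q a w z p1 D : ℕ) (hp1 : p1.Prime) (l l' : ℕ → ℝ)
    (hsup : ∀ d, l d ≠ 0 ∨ l' d ≠ 0 → d ∣ ∏ p ∈ PP2 w z p1, p ∧ d ≤ D)
    (hpt : ∀ n : ℕ, 1 ≤ n →
      ∑ d ∈ n.divisors, l d - (if ∀ p ∈ PP2 w z p1, ¬ p ∣ n then 1 else 0)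
        ≤ ∑ d ∈ n.divisors, l' d) :
    ∑ d ∈ (Icc 1 D).filter (gd w p1), (l d - l' d) *
        ∑ m ∈ (Icc 1 X).filter (fun m => m ≡ a [MOD Q] ∧ d ∣ m + 2), pw X m
      ≤ ∑ m ∈ (Icc 1 X).filter (fun m => m ≡ a [MOD Q] ∧
          ∀ p ∈ pr w z, p ≠ p1 → ¬ p ∣ m + 2), pw X m := by
  have e1 : ∑ d ∈ (Icc 1 D).filter (gd w p1), (l d - l' d) *
        ∑ m ∈ (Icc 1 X).filter (fun m => m ≡ a [MOD Q] ∧ d ∣ m + 2), pw X m
      = ∑ m ∈ (Icc 1 X).filter (fun m => m ≡ a [MOD Q]), pw X m *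
          ∑ d ∈ (m + 2).divisors, (l d - l' d) := by
    have h1 : ∀ d ∈ (Icc 1 D).filter (gd w p1), (l d - l' d) *
        ∑ m ∈ (Icc 1 X).filter (fun m => m ≡ a [MOD Q] ∧ d ∣ m + 2), pw X m
        = ∑ m ∈ (Icc 1 X).filter (fun m => m ≡ a [MOD Q]),
            if d ∣ m + 2 then pw X m * (l d - l' d) else 0 := by
      intro d _
      rw [← filter_filter, sum_filter, mul_sum]
      refine sum_congr rfl fun m _ => ?_
      split_ifs
      · ring
      · ring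
    rw [sum_congr rfl h1, sum_comm]
    refine sum_congr rfl fun m _ => ?_
    rw [mul_sum, ← sum_filter]
    refine sum_subset_zero_on_sdiff ?_ ?_ (fun _ _ => rfl)
    · intro d hd
      rw [mem_filter, mem_filter] at hd
      exact Nat.mem_divisors.2 ⟨hd.2, by omega⟩
    · intro d hd
      rw [Finset.mem_sdiff, mem_filter, mem_filter, Nat.mem_divisors, mem_Icc] at hd
      obtain ⟨⟨h2, _⟩, h3⟩ := hd
      by_contra hne
      have h4 : l d ≠ 0 ∨ l' d ≠ 0 := by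
        by_contra h
        push Not at h
        rw [h.1, h.2] at hne
        simp at hne
      obtain ⟨h5, h6⟩ := hsup d h4
      exact h3 ⟨⟨⟨Nat.pos_of_dvd_of_pos h2 (by omega), h6⟩, gd_of_dvd hp1 h5⟩, h2⟩
  rw [e1]
  have e2 : ∑ m ∈ (Icc 1 X).filter (fun m => m ≡ a [MOD Q] ∧
          ∀ p ∈ pr w z, p ≠ p1 → ¬ p ∣ m + 2), pw X m
      = ∑ m ∈ (Icc 1 X).filter (fun m => m ≡ a [MOD Q]),
          pw X m * (if ∀ p ∈ PP2 w z p1, ¬ p ∣ m + 2 then 1 else 0) := by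
    rw [← filter_filter, sum_filter]
    refine sum_congr rfl fun m _ => ?_
    have hiff : (∀ p ∈ pr w z, p ≠ p1 → ¬ p ∣ m + 2) ↔ (∀ p ∈ PP2 w z p1, ¬ p ∣ m + 2) := by
      unfold PP2
      constructor
      · intro h p hp
        rw [mem_filter] at hp
        exact h p hp.1 hp.2
      · intro h p hp hne
        exact h p (mem_filter.2 ⟨hp, hne⟩)
    by_cases h : ∀ p ∈ PP2 w z p1, ¬ p ∣ m + 2
    · rw [if_pos h, if_pos (hiff.2 h), mul_one]
    · rw [if_neg h, if_neg (fun h' => h (hiff.1 h')), mul_zero]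
  rw [e2]
  refine sum_le_sum fun m _ => ?_
  refine mul_le_mul_of_nonneg_left ?_ (pw_nonneg X m)
  have h := hpt (m + 2) (by omega)
  rw [sum_sub_distrib]
  linarith

/-- the class modulo `Q d` -/
noncomputable def cl (Q a d : ℕ) : ℕ :=
  if h : Nat.Coprime Q d then (Nat.chineseRemainder h a (2 * d - 2)).1 else 1

theorem cl_spec {Q a d : ℕ} (hd : 1 ≤ d) (h : Nat.Coprime Q d) (m : ℕ) :
    m ≡ cl Q a d [MOD Q * d] ↔ m ≡ a [MOD Q] ∧ d ∣ m + 2 := by
  have h1 : cl Q a d = (Nat.chineseRemainder h a (2 * d - 2)).1 := by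
    unfold cl
    rw [dif_pos h]
  have h2 := (Nat.chineseRemainder h a (2 * d - 2)).2
  rw [← h1] at h2
  rw [← Nat.modEq_and_modEq_iff_modEq_mul h]
  have h3 : ∀ n : ℕ, n ≡ 2 * d - 2 [MOD d] ↔ d ∣ n + 2 := by
    intro n
    have e : 2 * d - 2 + 2 = 2 * d := by omega
    constructor
    · intro hn
      have := Nat.ModEq.add_right 2 hn
      rw [e] at this
      exact (Nat.modEq_zero_iff_dvd.1 (this.trans (Nat.modEq_zero_iff_dvd.2 (dvd_mul_left d 2))))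
    · intro hn
      have h4 : n + 2 ≡ 2 * d - 2 + 2 [MOD d] := by
        rw [e]
        exact (Nat.modEq_zero_iff_dvd.2 hn).trans (Nat.modEq_zero_iff_dvd.2 (dvd_mul_left d 2)).symm
      exact Nat.ModEq.add_right_cancel' 2 h4
  constructor
  · rintro ⟨h4, h5⟩
    exact ⟨h4.trans h2.1, (h3 m).1 (h5.trans h2.2)⟩
  · rintro ⟨h4, h5⟩
    exact ⟨h4.trans h2.1.symm, ((h3 m).2 h5).trans h2.2.symm⟩

theorem cl_coprime {Q a d w : ℕ} (hw : 2 ≤ w) (hd : 1 ≤ d) (h : Nat.Coprime Q d)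
    (ha : Nat.Coprime a Q) (hdw : ∀ p : ℕ, p.Prime → p ∣ d → w < p) :
    Nat.Coprime (cl Q a d) (Q * d) := by
  have h1 := (cl_spec hd h (cl Q a d)).1 (Nat.ModEq.refl _)
  refine Nat.Coprime.mul_right ?_ ?_
  · have := h1.1.gcd_eq
    rw [Nat.coprime_iff_gcd_eq_one, this]
    exact ha
  · refine Nat.Coprime.symm (Nat.coprime_of_dvd fun p hp hpd hpc => ?_)
    have h2 : p ∣ cl Q a d + 2 := hpd.trans h1.2
    have h3 : p ∣ 2 := (Nat.dvd_add_right hpc).1 h2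
    have h4 := Nat.le_of_dvd (by norm_num) h3
    have h5 := hdw p hp hpd
    omega

theorem th_cl {X Q a d : ℕ} (hd : 1 ≤ d) (h : Nat.Coprime Q d) :
    ∑ m ∈ (Icc 1 X).filter (fun m => m ≡ a [MOD Q] ∧ d ∣ m + 2), pw X m
      = th X (Q * d) (cl Q a d) := by
  unfold Pool.Agent.Helper88.CG.th
  refine sum_congr (filter_congr fun m _ => ?_) fun _ _ => rfl
  exact (cl_spec hd h m).symm

end Pool.Agent.Helper57.TW
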