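import Pool.Agent.Helper57.TW.LBb

/-! # Packet LBB: the lower bound without the weight, in the class `b` -/

set_option autoImplicit false

open Finset Filter Topology

open scoped Classical

namespace Pool.Agent.Helper57.TW

open Pool.Agent.Helper88.CG (tw pw th)
open Pool.Agent.Helper88.GM (NI XI)
open Pool.Agent.Helper88.PP (SS pr om Rg)
open Pool.Agent.Helper88.TU (Su)
open Pool.Agent.Helper76.TW

/-- the modulus is small -/
theorem Q4_le {E q p₁ w z : ℕ} {L : ℝ} (hq : 1 ≤ q) (hE : 1 ≤ E) (hw : 24 * E + q + 4 < w)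
    (hz : 1 ≤ z) (hw10 : (w : ℝ) ^ 10 ≤ L) (hL : L ≤ 2 * (E * Real.log z)) :
    Qm q p₁ w ^ 4 ≤ z := by
  have hw1r : (1 : ℝ) ≤ w := by exact_mod_cast (by omega : 1 ≤ w)
  have h1' : Qm q p₁ w ≤ q * 4 ^ w :=
    (Qm_le q p₁ w).trans (Nat.mul_le_mul_left q (primorial_le_four_pow w))
  have h1 : ((Qm q p₁ w : ℕ) : ℝ) ≤ q * 4 ^ w := by exact_mod_cast h1'
  have hQ1 := Qm_pos hq p₁ w
  set Q := Qm q p₁ w with hQ
  have hQr : (0 : ℝ) < Q := by exact_mod_cast hQ1
  have hqr : (0 : ℝ) < q := by exact_mod_cast hq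
  have h2 : Real.log ((Q : ℝ) ^ 4) ≤ Real.log z := by
    rw [Real.log_pow]
    have h3 : Real.log Q ≤ Real.log q + w * Real.log 4 := by
      have h4 := Real.log_le_log hQr h1
      rwa [Real.log_mul hqr.ne' (by positivity), Real.log_pow] at h4
    have h5 : Real.log q ≤ w := by
      have h6 := Real.log_le_sub_one_of_pos hqr
      have h7 : (q : ℝ) ≤ w := by exact_mod_cast (by omega : q ≤ w)
      linarith
    have h6 : Real.log 4 ≤ 3 / 2 := by
      have h7 : Real.log 4 = 2 * Real.log 2 := by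
        rw [show (4 : ℝ) = 2 ^ 2 by norm_num, Real.log_pow]; norm_num
      have := Real.log_two_lt_d9
      linarith
    have h7 : (w : ℝ) * Real.log 4 ≤ w * (3 / 2) := mul_le_mul_of_nonneg_left h6 (by linarith)
    have hEr : (0 : ℝ) < E := by exact_mod_cast (by omega : 0 < E)
    have h8 : 20 * (E : ℝ) * w ≤ L := by
      have h9 : (20 * (E : ℝ)) ≤ w := by exact_mod_cast (by omega : 20 * E ≤ w)
      have h10 : (w : ℝ) * w ≤ (w : ℝ) ^ 10 := by
        rw [← pow_two]
        exact pow_le_pow_right₀ hw1r (by norm_num)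
      calc 20 * (E : ℝ) * w ≤ w * w := mul_le_mul_of_nonneg_right h9 (by linarith)
        _ ≤ L := h10.trans hw10
    have h11 : 10 * (w : ℝ) ≤ Real.log z := by
      by_contra hcon
      push Not at hcon
      have h12 : 2 * (E * Real.log z) < 2 * (E * (10 * (w : ℝ))) := by
        have := mul_lt_mul_of_pos_left hcon hEr
        linarith
      linarith
    push_cast
    linarith
  have h13 : (0 : ℝ) < z := by exact_mod_cast (by omega : 0 < z)
  have h14 := (Real.log_le_log_iff (by positivity) h13).1 h2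
  exact_mod_cast h14

theorem w_large {W D w : ℕ} {L : ℝ} (h1 : ((W : ℕ) : ℝ) ^ D < L) (h2 : L ≤ (w : ℝ) ^ D) : W < w := by
  by_contra h
  push Not at h
  have h3 : (w : ℝ) ^ D ≤ ((W : ℕ) : ℝ) ^ D :=
    pow_le_pow_left₀ (Nat.cast_nonneg _) (by exact_mod_cast h) D
  linarith

theorem Qm_coprime_p1 {q p₁ w : ℕ} (hp₁ : p₁.Prime) (h1 : ¬ p₁ ∣ q) :
    Nat.Coprime (Qm q p₁ w) p₁ := by
  rw [Nat.coprime_comm, Nat.Prime.coprime_iff_not_dvd hp₁]
  intro h
  unfold Qm at h
  rcases (Nat.Prime.dvd_mul hp₁).1 h with h2 | h2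
  · exact h1 h2
  · obtain ⟨r, hr, h3⟩ := (Nat.Prime.prime hp₁).exists_mem_finset_dvd h2
    obtain ⟨h4, h5⟩ := Finset.mem_filter.1 hr
    exact h5.2.1 ((Nat.prime_dvd_prime_iff_eq hp₁ h5.1).1 h3).symm

theorem XQ_mul {x Q p : ℕ} (hp : 1 ≤ p) : XQ x (Q * p) = XQ x Q / p := by
  unfold XQ XI
  have : (p : ℝ) ≠ 0 := by exact_mod_cast (by omega : p ≠ 0)
  push_cast
  rw [div_div]

/-- the comparison of the two normalisations -/
theorem norm_cmp : ∃ K : ℝ, 0 < K ∧ ∃ E0 : ℕ, ∀ D q p₁ E z x y w : ℕ, E0 ≤ E → 1 ≤ q → p₁.Prime →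
    2 ≤ w → Su E z x y → Real.log x ≤ (w : ℝ) ^ D →
    XQ x (Qm q p₁ w) * (om y z ^ 2 / E)
      ≤ K * (D + 1) * (x / ((Nat.totient (Qm q p₁ w) : ℝ) * Real.log x) * om y z) := by
  obtain ⟨c3, hc3, hratio⟩ := ratio_Q
  obtain ⟨co, Co, hco, hCo, E3, hom⟩ := om_size
  obtain ⟨E1, hsize⟩ := Pool.Agent.Helper88.TU.size
  refine ⟨31 * Co / c3, by positivity, max (max E1 E3) 1, fun D q p₁ E z x y w hE hq hp₁ hw hSu hwD => ?_⟩
  have hE1 : E1 ≤ E := ((le_max_left _ _).trans (le_max_left _ _)).trans hE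
  have hE3 : E3 ≤ E := ((le_max_right _ _).trans (le_max_left _ _)).trans hE
  have hEpos : 1 ≤ E := (le_max_right _ _).trans hE
  obtain ⟨s1, s2, s3, s4, s5, s6, s7, s8, s9, s10, s11, s12, s13, s14⟩ := hsize E z x y hE1 hSu
  obtain ⟨o1, o2⟩ := hom E z x y hE3 hSu
  have hr := hratio q p₁ w hq hp₁ hw
  have hQ1 := Qm_pos hq p₁ w
  set Q := Qm q p₁ w with hQ
  have hQr : (0 : ℝ) < Q := by exact_mod_cast hQ1
  have hφ : (0 : ℝ) < (Nat.totient Q : ℝ) := by exact_mod_cast Nat.totient_pos.2 hQ1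
  have hEr : (0 : ℝ) < E := by exact_mod_cast hEpos
  have hll : 0 < Real.log (Real.log x) := by linarith
  have hLpos : 0 < Real.log x := by
    by_contra h
    push Not at h
    have h1 : Real.log x = 0 := le_antisymm h (Real.log_natCast_nonneg x)
    rw [h1, Real.log_zero] at hll
    exact lt_irrefl _ hll
  have hLL : Real.log (Real.log x) ≤ D * Real.log w := by
    rw [← Real.log_pow]
    exact Real.log_le_log hLpos hwD
  set L := Real.log x with hL
  set o := om y z with ho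
  have ho0 : 0 < o := lt_of_lt_of_le (by positivity) o1
  have hxr : (0 : ℝ) < x := by exact_mod_cast (by omega : 0 < x)
  have hXQ : XQ x Q = 31 * x / Q := by
    unfold XQ XI
    have : 32 * x - x = 31 * x := by omega
    rw [this]
    push_cast
    rfl
  have h1 : o / E ≤ Co * (Real.log L / L) := by
    rw [div_le_iff₀ hEr]
    calc o ≤ Co * (E * Real.log L / L) := o2
      _ = Co * (Real.log L / L) * E := by ring
  have h2 : Real.log L / Q ≤ (D + 1) / (c3 * (Nat.totient Q : ℝ)) := by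
    rw [le_div_iff₀ hφ] at hr
    rw [div_le_div_iff₀ hQr (by positivity)]
    have h3 : 0 ≤ Real.log w := Real.log_natCast_nonneg w
    have h4 : c3 * (Nat.totient Q : ℝ) * Real.log L ≤ c3 * (Nat.totient Q : ℝ) * (D * Real.log w) :=
      mul_le_mul_of_nonneg_left hLL (by positivity)
    have h5 : (D : ℝ) * (c3 * Real.log w * (Nat.totient Q : ℝ)) ≤ D * Q :=
      mul_le_mul_of_nonneg_left hr (Nat.cast_nonneg _)
    nlinarith only [h4, h5, hQr]
  calc XQ x Q * (o ^ 2 / E) = 31 * x * o / Q * (o / E) := by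
        rw [hXQ]; ring
    _ ≤ 31 * x * o / Q * (Co * (Real.log L / L)) := mul_le_mul_of_nonneg_left h1 (by positivity)
    _ = 31 * x * o * Co / L * (Real.log L / Q) := by ring
    _ ≤ 31 * x * o * Co / L * ((D + 1) / (c3 * (Nat.totient Q : ℝ))) :=
        mul_le_mul_of_nonneg_left h2 (by positivity)
    _ = 31 * Co / c3 * (D + 1) * (x / ((Nat.totient Q : ℝ) * L) * o) := by
        field_simp

theorem lbb (hL2 : Pool.Agent.Helper76.TW.StmtL2) (hBT : StmtBT2) : StmtLBB := by
  obtain ⟨CB, hCB, E2, hBT⟩ := hBT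
  obtain ⟨K, hK, E4, hnorm⟩ := norm_cmp
  obtain ⟨co, Co, hco, hCo, E3, hom⟩ := om_size
  obtain ⟨CT, hCT, hbt⟩ := bt_class
  obtain ⟨E1, hsize⟩ := Pool.Agent.Helper88.TU.size
  intro D q hq
  obtain ⟨c, hc, hL2⟩ := hL2 D q hq
  refine ⟨c / (2 * (K * (D + 1))), by positivity, fun P₀ => ?_⟩
  obtain ⟨E5, hL2⟩ := hL2 (max P₀ (q + 1))
  refine ⟨max (max (max E1 E2) (max E3 E4)) (max E5 16), fun E hE => ?_⟩
  have hE1 : E1 ≤ E := le_trans (by simp) hE
  have hE2 : E2 ≤ E := le_trans (by simp) hE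
  have hE3 : E3 ≤ E := le_trans (by simp) hE
  have hE4 : E4 ≤ E := le_trans (by simp) hE
  have hE5 : E5 ≤ E := le_trans (by simp) hE
  have hE16 : 16 ≤ E := le_trans (by simp) hE
  obtain ⟨x1, hL2⟩ := hL2 E hE5
  set W := 24 * E + q + 4 + ⌈4 * CB * (K * (D + 1)) / c⌉₊ with hW
  obtain ⟨x3, hx3⟩ : ∃ x3 : ℕ, ∀ x : ℕ, x3 ≤ x →
      ((W : ℕ) : ℝ) ^ D < Real.log x ∧ 64 ≤ Real.log x ∧
      4 * (66 * CT) / (c * co) ≤ Real.log (Real.log x) := by
    have h1 : Tendsto (fun x : ℕ => Real.log x) atTop atTop :=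
      Real.tendsto_log_atTop.comp tendsto_natCast_atTop_atTop
    have h2 := (h1.eventually_gt_atTop (((W : ℕ) : ℝ) ^ D)).and
      ((h1.eventually_ge_atTop 64).and ((Real.tendsto_log_atTop.comp h1).eventually_ge_atTop
        (4 * (66 * CT) / (c * co))))
    exact eventually_atTop.1 h2
  refine ⟨x1 + x3 + 16, fun x hx => ?_⟩
  obtain ⟨hL1, hL64, hLL⟩ := hx3 x (by omega)
  obtain ⟨p₁, hp₁, hp₁N, hL2⟩ := hL2 x (by omega)
  have hp₁P : P₀ ≤ p₁ := (le_max_left _ _).trans hp₁N
  have hp₁q : ¬ p₁ ∣ q := fun h => by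
    have h1 := Nat.le_of_dvd (by omega) h
    have h2 : q + 1 ≤ p₁ := (le_max_right _ _).trans hp₁N
    omega
  refine ⟨p₁, hp₁, hp₁P, fun z y w hSu hw10 hwD b j hb hj hjy hcop1 hcop2 => ?_⟩
  have hwW := w_large hL1 hwD
  have hmain := hL2 z y w hSu hw10 hwD (b + j) hcop1 hcop2
  have hcmp := hnorm D q p₁ E z x y w hE4 hq hp₁ (by omega) hSu hwD
  obtain ⟨s1, s2, s3, s4, s5, s6, s7, s8, s9, s10, s11, s12, s13, s14⟩ := hsize E z x y hE1 hSu
  have homs := hom E z x y hE3 hSu
  have hQ4 : Qm q p₁ w ^ 4 ≤ z := Q4_le hq (by omega) (by omega) (by omega) hw10 s3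
  have hSu' := hSu
  obtain ⟨t1, t2, t3, t4, t5⟩ := hSu
  have hQ1 := Qm_pos hq p₁ w
  have hQpr : ∀ p : ℕ, p.Prime → p ∣ Qm q p₁ w → p ≤ w := fun p hp h => by
    rcases le_of_dvd_Qm hq hp h with h1 | h1
    · omega
    · exact h1
  have hQp₁ : Nat.Coprime (Qm q p₁ w) p₁ := Qm_coprime_p1 hp₁ hp₁q
  set Q := Qm q p₁ w with hQ
  set L := Real.log x with hLdef
  have hLpos : 0 < L := by linarith
  have hw1r : (1 : ℝ) ≤ w := by exact_mod_cast (by omega : 1 ≤ w)
  have hwL : (w : ℝ) ≤ L := by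
    refine le_trans ?_ hw10
    calc (w : ℝ) = (w : ℝ) ^ 1 := (pow_one _).symm
      _ ≤ (w : ℝ) ^ 10 := pow_le_pow_right₀ hw1r (by norm_num)
  have hwy : w ≤ y := by exact_mod_cast hwL.trans t4
  have hφ : (0 : ℝ) < (Nat.totient Q : ℝ) := by exact_mod_cast Nat.totient_pos.2 hQ1
  have hEr : (0 : ℝ) < E := by exact_mod_cast (by omega : 0 < E)
  have ho0 : 0 < om y z := lt_of_lt_of_le (by positivity) homs.1
  have hxr : (16 : ℝ) ≤ x := by exact_mod_cast (by omega : 16 ≤ x)
  set o := om y z with ho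
  set U := x / ((Nat.totient Q : ℝ) * L) * o with hU
  have hU0 : 0 < U := by rw [hU]; positivity
  -- the indicator
  set F : ℕ → ℝ := fun m => if ∀ p ∈ pr w z, p ≠ p₁ → ¬ p ∣ m + 2 then 1 else 0 with hF
  have hsum1 : ∑ m ∈ (Icc 1 (32 * x)).filter (fun m => m ≡ b + j [MOD Q] ∧
        ∀ p ∈ pr w z, p ≠ p₁ → ¬ p ∣ m + 2), pw (32 * x) m
      = ∑ n ∈ NQ x Q b, pw (32 * x) (n + j) * F (n + j) := by
    rw [sum_shift x Q b j F (by omega) hb (by omega), ← filter_filter, sum_filter]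
    refine sum_congr rfl fun m _ => ?_
    rw [hF]
    simp only
    split_ifs
    · rw [mul_one]
    · rw [mul_zero]
  -- the exceptional `n`
  set A := (NQ x Q b).filter (fun n => (n + j).Prime ∧ p₁ ∈ pr w z ∧ p₁ ∣ n + j + 2 ∧
    ∀ p ∈ pr w z, p ≠ p₁ → ¬ p ∣ n + j + 2) with hA
  have hsum2 : ∑ n ∈ NQ x Q b, pw (32 * x) (n + j) * F (n + j)
      ≤ ∑ n ∈ NQ x Q b, pj x w z j n + (A.card : ℝ) := by
    have h1 : (A.card : ℝ) = ∑ n ∈ NQ x Q b, if ((n + j).Prime ∧ p₁ ∈ pr w z ∧ p₁ ∣ n + j + 2 ∧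
        ∀ p ∈ pr w z, p ≠ p₁ → ¬ p ∣ n + j + 2) then (1 : ℝ) else 0 := by
      rw [hA, sum_boole]
    rw [h1, ← sum_add_distrib]
    refine sum_le_sum fun n _ => ?_
    have hpw0 := Pool.Agent.Helper80.CR.pw_nonneg (x := 32 * x) (n := n + j)
    by_cases hFn : ∀ p ∈ pr w z, p ≠ p₁ → ¬ p ∣ n + j + 2
    · have e1 : F (n + j) = 1 := by rw [hF]; exact if_pos hFn
      rw [e1, mul_one]
      by_cases hR : Rg w z (n + j + 2)
      · have e2 : pj x w z j n = pw (32 * x) (n + j) := by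
          unfold pj
          rw [if_pos hR, mul_one]
        rw [e2]
        split_ifs <;> linarith
      · have h2 : p₁ ∈ pr w z ∧ p₁ ∣ n + j + 2 := by
          unfold Rg at hR
          push Not at hR
          obtain ⟨p, hp, hpd⟩ := hR
          by_cases hpp : p = p₁
          · rw [← hpp]; exact ⟨hp, hpd⟩
          · exact absurd hpd (hFn p hp hpp)
        have hpj0 : 0 ≤ pj x w z j n := by
          unfold pj
          refine mul_nonneg hpw0 ?_
          split_ifs <;> norm_num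
        by_cases hpr : (n + j).Prime
        · rw [if_pos ⟨hpr, h2.1, h2.2, hFn⟩]
          have := pw_le_one (x := 32 * x) (n := n + j) (by omega)
          linarith
        · have h3 : pw (32 * x) (n + j) = 0 := by
            unfold Pool.Agent.Helper88.CG.pw
            rw [if_neg hpr]
          rw [h3]
          split_ifs <;> linarith
    · have e1 : F (n + j) = 0 := by rw [hF]; exact if_neg hFn
      rw [e1, mul_zero]
      have hpj0 : 0 ≤ pj x w z j n := by
        unfold pj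
        refine mul_nonneg hpw0 ?_
        split_ifs <;> norm_num
      split_ifs <;> linarith
  -- the bound for `A`
  have hAb : (A.card : ℝ) ≤ c / 4 * U := by
    by_cases hmem : p₁ ∈ pr w z
    swap
    · have h0 : A = ∅ := by
        rw [hA, filter_eq_empty_iff]
        intro n _ h
        exact hmem h.2.1
      rw [h0, card_empty]
      push_cast
      positivity
    have hmem' : w < p₁ ∧ p₁ ≤ z := by
      unfold pr at hmem
      rw [mem_filter, mem_Ioc] at hmem
      exact hmem.1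
    obtain ⟨b', hb', hcl⟩ := class_mul Q p₁ b (j + 2) hp₁.one_lt.le hb hQp₁
    rcases le_or_gt p₁ y with hpy | hpy
    · -- `p₁ ≤ y`
      have hIq : Iq x y (Q * p₁) b' := by
        refine ⟨hb', fun p hp h => ?_, ?_⟩
        · rcases (Nat.Prime.dvd_mul hp).1 h with h1 | h1
          · exact (hQpr p hp h1).trans hwy
          · rw [(Nat.prime_dvd_prime_iff_eq hp hp₁).1 h1]
            exact hpy
        · calc (Q * p₁) ^ 20 = (Q ^ 4) ^ 5 * (p₁ ^ 2) ^ 10 := by ring
            _ ≤ z ^ 5 * z ^ 10 := by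
                refine Nat.mul_le_mul (Nat.pow_le_pow_left hQ4 5) (Nat.pow_le_pow_left ?_ 10)
                exact (Nat.pow_le_pow_left hpy 2).trans s8
            _ = z ^ 15 := by ring
            _ ≤ z ^ E := Nat.pow_le_pow_right (by omega) (by omega)
            _ ≤ x := t2
      have h1 := (hBT E z x y hE2 hSu' (Q * p₁) b' hIq).1 j hj hjy
      have h2 : A ⊆ (NQ x (Q * p₁) b').filter (fun n => (n + j).Prime ∧ Rg y z (n + j + 2)) := by
        intro n hn
        rw [hA, mem_filter] at hn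
        obtain ⟨g1, g2, g3, g4, g5⟩ := hn
        obtain ⟨g6, g7, g8⟩ := mem_NQ g1
        refine mem_filter.2 ⟨?_, g2, fun p hp => ?_⟩
        · unfold NQ NI
          refine mem_filter.2 ⟨mem_Ioc.2 ⟨g6, g7⟩, (hcl n).2 ⟨g8, ?_⟩⟩
          rw [← add_assoc]
          exact g4
        · unfold pr at hp
          rw [mem_filter, mem_Ioc] at hp
          refine g5 p ?_ (by omega)
          unfold pr
          exact mem_filter.2 ⟨mem_Ioc.2 ⟨by omega, hp.1.2⟩, hp.2⟩
      have h3 : (A.card : ℝ) ≤ CB * (XQ x (Q * p₁) * (o ^ 2 / E)) :=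
        le_trans (by exact_mod_cast card_le_card h2) h1
      rw [XQ_mul hp₁.one_lt.le] at h3
      have hp₁r : (0 : ℝ) < p₁ := by exact_mod_cast hp₁.pos
      have h4 : CB * (K * (D + 1)) / p₁ ≤ c / 4 := by
        rw [div_le_div_iff₀ hp₁r (by norm_num)]
        have h5 : 4 * CB * (K * (D + 1)) / c ≤ p₁ := by
          refine (Nat.le_ceil _).trans ?_
          exact_mod_cast (by omega : ⌈4 * CB * (K * (D + 1)) / c⌉₊ ≤ p₁)
        rw [div_le_iff₀ hc] at h5
        linarith
      calc (A.card : ℝ) ≤ CB * (XQ x Q / p₁ * (o ^ 2 / E)) := h3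
        _ = CB / p₁ * (XQ x Q * (o ^ 2 / E)) := by ring
        _ ≤ CB / p₁ * (K * (D + 1) * U) := mul_le_mul_of_nonneg_left hcmp (by positivity)
        _ = CB * (K * (D + 1)) / p₁ * U := by ring
        _ ≤ c / 4 * U := mul_le_mul_of_nonneg_right h4 hU0.le
    · -- `y < p₁ ≤ z`
      have hQp1 : 1 ≤ Q * p₁ := Nat.mul_pos hQ1 hp₁.pos
      have hQpx : (Q * p₁) ^ 2 ≤ x := by
        calc (Q * p₁) ^ 2 = Q ^ 2 * p₁ ^ 2 := by ring
          _ ≤ Q ^ 4 * p₁ ^ 2 := Nat.mul_le_mul_right _ (Nat.pow_le_pow_right hQ1 (by norm_num))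
          _ ≤ z * z ^ 2 := Nat.mul_le_mul hQ4 (Nat.pow_le_pow_left hmem'.2 2)
          _ = z ^ 3 := by ring
          _ ≤ z ^ E := Nat.pow_le_pow_right (by omega) (by omega)
          _ ≤ x := t2
      have hQpx1 : Q * p₁ ≤ x := le_trans (Nat.le_self_pow (by norm_num) _) hQpx
      have h1 := hbt (33 * x) (Q * p₁) (b' + j) (by omega) hQp1 (by omega)
      have h2 : A.card ≤ ((Icc 1 (33 * x)).filter (fun m => m.Prime ∧ Q * p₁ < m ∧
          m ≡ b' + j [MOD Q * p₁])).card := by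
        refine card_le_card_of_injOn (fun n => n + j) ?_ ?_
        · intro n hn
          have hn' : n ∈ A := hn
          rw [hA, mem_filter] at hn'
          obtain ⟨g1, g2, g3, g4, g5⟩ := hn'
          obtain ⟨g6, g7, g8⟩ := mem_NQ g1
          refine mem_coe.2 (mem_filter.2 ⟨mem_Icc.2 ⟨?_, ?_⟩, g2, ?_, ?_⟩)
          · change 1 ≤ n + j; omega
          · change n + j ≤ 33 * x; omega
          · change Q * p₁ < n + j; omega
          · refine Nat.ModEq.add_right j ?_
            unfold Nat.ModEq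
            rw [Nat.mod_eq_of_lt hb']
            exact (hcl n).2 ⟨g8, by rw [← add_assoc]; exact g4⟩
        · intro n _ n' _ h
          have h' : n + j = n' + j := h
          omega
      have hp₁r : (1 : ℝ) < p₁ := by exact_mod_cast hp₁.one_lt
      have hp₁2 : (2 : ℝ) ≤ p₁ := by exact_mod_cast hp₁.two_le
      have hlx : 0 < Real.log ((33 * x : ℕ) : ℝ) := Real.log_pos (by push_cast; linarith)
      have hlxL : L ≤ Real.log ((33 * x : ℕ) : ℝ) := by
        refine Real.log_le_log (by linarith) ?_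
        push_cast
        linarith
      have hyp : L ≤ p₁ := by
        have : (y : ℝ) < p₁ := by exact_mod_cast hpy
        linarith
      have htot : (Nat.totient (Q * p₁) : ℝ) = (Nat.totient Q : ℝ) * ((p₁ : ℝ) - 1) := by
        rw [Nat.totient_mul hQp₁, Nat.totient_prime hp₁]
        push_cast [hp₁.one_lt.le]
        ring
      have h3 : ((33 * x : ℕ) : ℝ) / ((Nat.totient (Q * p₁) : ℝ) * Real.log ((33 * x : ℕ) : ℝ))
          ≤ 66 * (x / ((Nat.totient Q : ℝ) * L)) * (1 / L) := by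
        rw [htot]
        have h4 : (Nat.totient Q : ℝ) * (L / 2) * L
            ≤ (Nat.totient Q : ℝ) * ((p₁ : ℝ) - 1) * Real.log ((33 * x : ℕ) : ℝ) := by
          have h5 : L / 2 ≤ (p₁ : ℝ) - 1 := by linarith
          have h6 : (Nat.totient Q : ℝ) * (L / 2) ≤ (Nat.totient Q : ℝ) * ((p₁ : ℝ) - 1) :=
            mul_le_mul_of_nonneg_left h5 hφ.le
          exact mul_le_mul h6 hlxL hLpos.le (by positivity)
        calc ((33 * x : ℕ) : ℝ) / ((Nat.totient Q : ℝ) * ((p₁ : ℝ) - 1) *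
              Real.log ((33 * x : ℕ) : ℝ))
            ≤ ((33 * x : ℕ) : ℝ) / ((Nat.totient Q : ℝ) * (L / 2) * L) :=
              div_le_div_of_nonneg_left (by positivity) (by positivity) h4
          _ = 66 * (x / ((Nat.totient Q : ℝ) * L)) * (1 / L) := by
              push_cast
              field_simp
              ring
      have h7 : 66 * CT * (1 / L) ≤ c / 4 * o := by
        have h8 : co * (Real.log L / L) ≤ o := by
          refine le_trans ?_ homs.1
          have h9 : (1 : ℝ) ≤ E := by exact_mod_cast (by omega : 1 ≤ E)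
          have h10 : 0 ≤ Real.log L / L := by
            refine div_nonneg ?_ hLpos.le
            linarith
          calc co * (Real.log L / L) = co * (1 * (Real.log L / L)) := by ring
            _ ≤ co * (E * (Real.log L / L)) :=
                mul_le_mul_of_nonneg_left (mul_le_mul_of_nonneg_right h9 h10) hco.le
            _ = co * (E * Real.log L / L) := by ring
        have h11 : 4 * (66 * CT) ≤ Real.log L * (c * co) := by
          rwa [div_le_iff₀ (by positivity)] at hLL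
        have h12 : 66 * CT * (1 / L) ≤ c / 4 * (co * (Real.log L / L)) := by
          have e1 : 66 * CT * (1 / L) = (66 * CT) / L := by ring
          have e2 : c / 4 * (co * (Real.log L / L)) = (c * co * Real.log L / 4) / L := by ring
          rw [e1, e2]
          refine div_le_div_of_nonneg_right ?_ hLpos.le
          linarith
        refine h12.trans (mul_le_mul_of_nonneg_left h8 (by positivity))
      calc (A.card : ℝ) ≤ _ := by exact_mod_cast h2
        _ ≤ _ := h1
        _ ≤ CT * (66 * (x / ((Nat.totient Q : ℝ) * L)) * (1 / L)) :=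
            mul_le_mul_of_nonneg_left h3 hCT.le
        _ = (x / ((Nat.totient Q : ℝ) * L)) * (66 * CT * (1 / L)) := by ring
        _ ≤ (x / ((Nat.totient Q : ℝ) * L)) * (c / 4 * o) :=
            mul_le_mul_of_nonneg_left h7 (by positivity)
        _ = c / 4 * U := by rw [hU]; ring
  rw [hsum1] at hmain
  have hfin : c / (2 * (K * (D + 1))) * (XQ x Q * (o ^ 2 / E)) ≤ c / 2 * U := by
    calc c / (2 * (K * (D + 1))) * (XQ x Q * (o ^ 2 / E))
        ≤ c / (2 * (K * (D + 1))) * (K * (D + 1) * U) :=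
          mul_le_mul_of_nonneg_left hcmp (by positivity)
      _ = c / 2 * U := by field_simp
  linarith only [hmain, hsum2, hAb, hfin, hU0, mul_pos hc hU0]

end Pool.Agent.Helper57.TW
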