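import Pool.Agent.Helper76.TW.PKb
import Pool.Agent.Helper76.TW.PKc
import Pool.Agent.Helper90.Tot.BT
import Pool.Agent.Helper27.LG.BG
import Pool.Agent.Helper80.CR.PJ

/-! # Packets LBB, SL: lemmas -/

set_option autoImplicit false

open Finset Filter Topology

open scoped Classical

namespace Pool.Agent.Helper57.TW

open Pool.Agent.Helper88.CG (tw pw th)
open Pool.Agent.Helper88.GM (NI XI)
open Pool.Agent.Helper88.PP (SS pr om Rg)
open Pool.Agent.Helper88.TU (Su)
open Pool.Agent.Helper76.TW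

/-- the sum over `n` as a sum over `m = n + j` -/
theorem sum_shift (x Q b j : ℕ) (F : ℕ → ℝ) (hx : 1 ≤ x) (hb : b < Q) (hj : j ≤ x) :
    ∑ n ∈ NQ x Q b, pw (32 * x) (n + j) * F (n + j)
      = ∑ m ∈ (Icc 1 (32 * x)).filter (fun m => m ≡ b + j [MOD Q]), pw (32 * x) m * F m := by
  have hinj : Set.InjOn (fun n => n + j) (NQ x Q b : Set ℕ) := by
    intro n _ n' _ h
    have h' : n + j = n' + j := h
    omega
  rw [← sum_image (f := fun m => pw (32 * x) m * F m) hinj]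
  refine sum_congr_of_eq_on_inter ?_ ?_ (fun _ _ _ => rfl)
  · intro m hm hm'
    rw [mem_image] at hm
    obtain ⟨n, hn, rfl⟩ := hm
    obtain ⟨h1, h2, h3⟩ := mem_NQ hn
    have h4 : n + j ≡ b + j [MOD Q] := (NQ_modEq hb hn).add_right j
    by_contra hne
    have h5 : pw (32 * x) (n + j) ≠ 0 := left_ne_zero_of_mul hne
    have h6 := Pool.Agent.Helper80.CR.pw_supp (by omega) (by omega) h5
    exact hm' (mem_filter.2 ⟨mem_Icc.2 ⟨by omega, h6.2.le⟩, h4⟩)
  · intro m hm hm'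
    rw [mem_filter, mem_Icc] at hm
    obtain ⟨⟨h1, h2⟩, h3⟩ := hm
    by_contra hne
    have h5 : pw (32 * x) m ≠ 0 := left_ne_zero_of_mul hne
    obtain ⟨h6, h7⟩ := Pool.Agent.Helper80.CR.pw_supp (by omega) (by omega) h5
    have h8 : 2 * x < m := by
      have h9 : (2 : ℝ) * x < m := by
        have h10 : ((32 * x : ℕ) : ℝ) / 16 = 2 * x := by push_cast; ring
        rwa [h10] at h6
      exact_mod_cast h9
    have h11 : m - j + j = m := by omega
    refine hm' (mem_image.2 ⟨m - j, ?_, h11⟩)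
    unfold NQ NI
    refine mem_filter.2 ⟨mem_Ioc.2 ⟨by omega, by omega⟩, ?_⟩
    have h12 : m - j ≡ b [MOD Q] := by
      refine Nat.ModEq.add_right_cancel' j ?_
      rw [h11]
      exact h3
    unfold Nat.ModEq at h12
    rw [h12, Nat.mod_eq_of_lt hb]

/-- a class modulo `Q p` -/
theorem class_mul (Q p b t : ℕ) (hp : 1 ≤ p) (hb : b < Q) (h : Nat.Coprime Q p) :
    ∃ b' : ℕ, b' < Q * p ∧ ∀ n : ℕ, n % (Q * p) = b' ↔ n % Q = b ∧ p ∣ n + t := by
  have hQp : 0 < Q * p := Nat.mul_pos (by omega) hp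
  set c := (p - t % p) % p with hc
  have hct : ∀ n : ℕ, n ≡ c [MOD p] ↔ p ∣ n + t := by
    intro n
    have h1 : c + t ≡ 0 [MOD p] := by
      have h2 : c ≡ p - t % p [MOD p] := Nat.mod_modEq _ _
      have h3 : t ≡ t % p [MOD p] := (Nat.mod_modEq t p).symm
      have h4 := h2.add h3
      have h5 : p - t % p + t % p = p := Nat.sub_add_cancel (Nat.mod_lt t hp).le
      rw [h5] at h4
      exact h4.trans (by unfold Nat.ModEq; simp)
    constructor
    · intro hn
      exact Nat.modEq_zero_iff_dvd.1 ((hn.add_right t).trans h1)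
    · intro hn
      exact Nat.ModEq.add_right_cancel' t ((Nat.modEq_zero_iff_dvd.2 hn).trans h1.symm)
  refine ⟨(Nat.chineseRemainder h b c).1 % (Q * p), Nat.mod_lt _ hQp, fun n => ?_⟩
  obtain ⟨h1, h2⟩ := (Nat.chineseRemainder h b c).2
  set k := (Nat.chineseRemainder h b c).1 with hk
  have h3 : n % (Q * p) = k % (Q * p) ↔ n ≡ k [MOD Q * p] := Iff.rfl
  rw [h3, ← Nat.modEq_and_modEq_iff_modEq_mul h]
  have h4 : n % Q = b ↔ n ≡ b [MOD Q] := by
    unfold Nat.ModEq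
    rw [Nat.mod_eq_of_lt hb]
  rw [h4, ← hct]
  constructor
  · rintro ⟨h5, h6⟩
    exact ⟨h5.trans h1, h6.trans h2⟩
  · rintro ⟨h5, h6⟩
    exact ⟨h5.trans h1.symm, h6.trans h2.symm⟩

theorem pw_le_one {x n : ℕ} (hn : 1 ≤ n) : pw x n ≤ 1 := by
  unfold Pool.Agent.Helper88.CG.pw
  split_ifs with h
  · by_cases h0 : pw x n = 0
    · unfold Pool.Agent.Helper88.CG.pw at h0
      rw [if_pos h] at h0
      rw [h0]
      exact zero_le_one
    · have hx : 0 < x := by
        rcases Nat.eq_zero_or_pos x with h1 | h1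
        · exfalso
          apply h0
          unfold Pool.Agent.Helper88.CG.pw
          rw [if_pos h, h1]
          simp
        · exact h1
      obtain ⟨h1, h2⟩ := Pool.Agent.Helper80.CR.pw_supp hx hn h0
      have hn' : (0 : ℝ) < n := by exact_mod_cast hn
      have h3 : Real.log n ≤ Real.log x := Real.log_le_log hn' (by exact_mod_cast h2.le)
      have h4 : 0 ≤ Real.log n := Real.log_natCast_nonneg n
      have h5 : Real.log n / Real.log x ≤ 1 := div_le_one_of_le₀ h3 (h4.trans h3)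
      have h6 : tw x n ≤ 1 := by
        unfold Pool.Agent.Helper88.CG.tw
        refine max_le zero_le_one ?_
        have : 0 ≤ |Real.log (4 * n / x)| / Real.log 4 := by positivity
        linarith
      have h7 : 0 ≤ Real.log n / Real.log x := div_nonneg h4 (h4.trans h3)
      exact mul_le_one₀ h6 h7 h5
  · exact zero_le_one

/-- `Q/φ(Q)` is large -/
theorem ratio_Q : ∃ c : ℝ, 0 < c ∧ ∀ q p₁ w : ℕ, 1 ≤ q → p₁.Prime → 2 ≤ w →
    c * Real.log w ≤ (Qm q p₁ w : ℝ) / (Nat.totient (Qm q p₁ w) : ℝ) := by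
  obtain ⟨C, hC, hmp⟩ := Pool.Agent.Helper37.PP.mp
  have hl2 : 0 < Real.log 2 := Real.log_pos (by norm_num)
  refine ⟨1 / (2 * C * Real.log 2), by positivity, fun q p₁ w hq hp₁ hw => ?_⟩
  have hQ := Qm_pos hq p₁ w
  rw [Pool.Agent.Helper90.Tot.ratio_eq _ hQ.ne']
  set S := (pr 2 w).filter (fun p => p ≠ p₁) with hS
  have hSp : ∀ p ∈ S, p.Prime ∧ 2 < p ∧ p ≤ w ∧ p ≠ p₁ := by
    intro p hp
    rw [hS, mem_filter] at hp
    unfold pr at hp
    rw [mem_filter, mem_Ioc] at hp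
    exact ⟨hp.1.2, hp.1.1.1, hp.1.1.2, hp.2⟩
  have hSub : S ⊆ (Qm q p₁ w).primeFactors := by
    intro p hp
    obtain ⟨h1, h2, h3, h4⟩ := hSp p hp
    exact Nat.mem_primeFactors.2 ⟨h1, dvd_Qm h1 h4 h3, hQ.ne'⟩
  have hfac : ∀ p : ℕ, p.Prime → 1 ≤ (1 - 1 / (p : ℝ))⁻¹ := by
    intro p hp
    exact (one_le_inv₀ (Pool.Agent.Helper90.Tot.one_sub_pos hp)).2
      Pool.Agent.Helper90.Tot.one_sub_le
  have h1 : ∏ p ∈ S, (1 - 1 / (p : ℝ))⁻¹ ≤ ∏ p ∈ (Qm q p₁ w).primeFactors, (1 - 1 / (p : ℝ))⁻¹ := by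
    rw [← prod_sdiff hSub]
    refine le_mul_of_one_le_left (prod_nonneg fun p hp =>
      le_trans zero_le_one (hfac p (hSp p hp).1)) ?_
    refine Finset.prod_induction _ (fun x : ℝ => 1 ≤ x)
      (fun a b ha hb => one_le_mul_of_one_le_of_one_le ha hb) le_rfl (fun p hp => ?_)
    exact hfac p (Nat.prime_of_mem_primeFactors (Finset.sdiff_subset hp))
  refine le_trans ?_ h1
  rw [prod_inv_distrib]
  -- the product over `S`
  have hS0 : 0 < ∏ p ∈ S, (1 - 1 / (p : ℝ)) :=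
    prod_pos fun p hp => Pool.Agent.Helper90.Tot.one_sub_pos (hSp p hp).1
  have h2 : ∏ p ∈ S, (1 - 1 / (p : ℝ)) ≤ 2 * om 2 w := by
    have h3 : om 2 w = (∏ p ∈ S, (1 - 1 / (p : ℝ))) *
        ∏ p ∈ (pr 2 w).filter (fun p => ¬ p ≠ p₁), (1 - 1 / (p : ℝ)) := by
      unfold om
      rw [hS, prod_filter_mul_prod_filter_not]
    have h4 : 1 / 2 ≤ ∏ p ∈ (pr 2 w).filter (fun p => ¬ p ≠ p₁), (1 - 1 / (p : ℝ)) := by
      have h5 : (pr 2 w).filter (fun p => ¬ p ≠ p₁) ⊆ {p₁} := by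
        intro p hp
        rw [mem_filter] at hp
        rw [mem_singleton]
        by_contra h
        exact hp.2 h
      rcases Finset.subset_singleton_iff.1 h5 with h6 | h6
      · rw [h6, prod_empty]
        norm_num
      · rw [h6, prod_singleton]
        have h7 : (2 : ℝ) ≤ p₁ := by exact_mod_cast hp₁.two_le
        have h8 : 1 / (p₁ : ℝ) ≤ 1 / 2 := one_div_le_one_div_of_le (by norm_num) h7
        linarith
    rw [h3]
    nlinarith only [h4, hS0]
  have h3 := hmp 2 w le_rfl hw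
  have hlw : 0 < Real.log w := Real.log_pos (by exact_mod_cast (by omega : 1 < w))
  have h4 : ∏ p ∈ S, (1 - 1 / (p : ℝ)) ≤ 2 * C * Real.log 2 / Real.log w := by
    calc ∏ p ∈ S, (1 - 1 / (p : ℝ)) ≤ 2 * om 2 w := h2
      _ ≤ 2 * (C * (Real.log (2 : ℕ) / Real.log w)) := by linarith
      _ = 2 * C * Real.log 2 / Real.log w := by push_cast; ring
  have h5 := inv_anti₀ hS0 h4
  refine le_trans (le_of_eq ?_) h5
  rw [inv_div]
  ring

end Pool.Agent.Helper57.TW
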