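import Pool.Agent.Helper57.TW.LBa

/-! # Packets LBB, SL: Brun-Titchmarsh -/

set_option autoImplicit false

open Finset Filter Topology

open scoped Classical

namespace Pool.Agent.Helper57.TW

theorem bt_class : ∃ C : ℝ, 0 < C ∧ ∀ X M r : ℕ, 16 ≤ X → 1 ≤ M → M ^ 2 ≤ X →
    (((Icc 1 X).filter (fun m => m.Prime ∧ M < m ∧ m ≡ r [MOD M])).card : ℝ)
      ≤ C * (X / ((Nat.totient M : ℝ) * Real.log X)) := by
  obtain ⟨C, hC, hBG⟩ := Pool.Agent.Helper27.LG.bg
  refine ⟨4 * C, by positivity, fun X M r hX hM hMX => ?_⟩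
  set A := (Icc 1 X).filter (fun m => m.Prime ∧ M < m ∧ m ≡ r [MOD M]) with hA
  have hφ : (0 : ℝ) < (Nat.totient M : ℝ) := by exact_mod_cast Nat.totient_pos.2 (by omega)
  have hXr : (16 : ℝ) ≤ X := by exact_mod_cast hX
  have hlX : 0 < Real.log X := Real.log_pos (by linarith)
  rcases A.eq_empty_or_nonempty with h0 | h0
  · rw [h0, card_empty]
    push_cast
    positivity
  have hcop : Nat.Coprime (r % M) M := by
    obtain ⟨m, hm⟩ := h0
    rw [hA, mem_filter] at hm
    obtain ⟨_, h1, h2, h3⟩ := hm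
    have h4 : Nat.Coprime m M := by
      rw [Nat.Prime.coprime_iff_not_dvd h1]
      intro h
      have := Nat.le_of_dvd (by omega) h
      omega
    rw [Nat.coprime_iff_gcd_eq_one, (Nat.mod_modEq r M).gcd_eq, ← h3.gcd_eq]
    exact h4
  set N := X / M with hN
  set s := Nat.sqrt X with hs
  have hs4 : 4 ≤ s := by
    rw [hs, Nat.le_sqrt]
    omega
  have hMs : M ≤ s := by
    rw [hs, Nat.le_sqrt]
    rw [← pow_two]
    exact hMX
  have hNs : s ≤ N := by
    rw [hN, Nat.le_div_iff_mul_le (by omega)]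
    calc s * M ≤ s * s := Nat.mul_le_mul_left s hMs
      _ ≤ X := Nat.sqrt_le X
  have hXN : X ≤ N ^ 4 := by
    have h1 : X < (s + 1) * (s + 1) := Nat.lt_succ_sqrt X
    have h2 : (s + 1) * (s + 1) ≤ s ^ 4 := by
      have h3 : s + 1 ≤ s * s := by nlinarith only [hs4]
      calc (s + 1) * (s + 1) ≤ (s * s) * (s * s) := Nat.mul_le_mul h3 h3
        _ = s ^ 4 := by ring
    exact (h1.le.trans h2).trans (Nat.pow_le_pow_left hNs 4)
  have h1 := hBG M (r % M) N hM (by omega) hcop
  have h2 : A.card ≤ ((Icc 1 N).filter (fun t => (M * t + r % M).Prime)).card := by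
    refine card_le_card_of_injOn (fun m => m / M) ?_ ?_
    · intro m hm
      have hm' : m ∈ A := hm
      rw [hA, mem_filter, mem_Icc] at hm'
      obtain ⟨⟨g1, g2⟩, g3, g4, g5⟩ := hm'
      have g6 : M * (m / M) + r % M = m := by
        unfold Nat.ModEq at g5
        rw [← g5]
        exact Nat.div_add_mod m M
      refine mem_coe.2 (mem_filter.2 ⟨mem_Icc.2 ⟨?_, Nat.div_le_div_right g2⟩, ?_⟩)
      · exact Nat.div_pos g4.le (by omega)
      · change (M * (m / M) + r % M).Prime
        rw [g6]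
        exact g3
    · intro m hm m' hm' h
      have hm1 : m ∈ A := hm
      have hm2 : m' ∈ A := hm'
      rw [hA, mem_filter] at hm1 hm2
      have g5 := hm1.2.2.2
      have g5' := hm2.2.2.2
      have h' : m / M = m' / M := h
      have e1 := Nat.div_add_mod m M
      have e2 := Nat.div_add_mod m' M
      unfold Nat.ModEq at g5 g5'
      rw [← e1, ← e2, h', g5, g5']
  have hNr : (4 : ℝ) ≤ N := by exact_mod_cast hs4.trans hNs
  have hlN : 0 < Real.log N := Real.log_pos (by linarith)
  have hlog : Real.log X ≤ 4 * Real.log N := by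
    have h3 : Real.log X ≤ Real.log ((N : ℝ) ^ 4) :=
      Real.log_le_log (by linarith) (by exact_mod_cast hXN)
    rw [Real.log_pow] at h3
    exact_mod_cast h3
  have hMr : (0 : ℝ) < M := by exact_mod_cast (by omega : 0 < M)
  have hNM : (N : ℝ) * M ≤ X := by exact_mod_cast Nat.div_mul_le_self X M
  calc (A.card : ℝ) ≤ (((Icc 1 N).filter (fun t => (M * t + r % M).Prime)).card : ℝ) := by
        exact_mod_cast h2
    _ ≤ C * (N / Real.log N) * (M / (Nat.totient M : ℝ)) := h1
    _ = C * (N * M) / (Nat.totient M : ℝ) * (1 / Real.log N) := by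
        field_simp
    _ ≤ C * X / (Nat.totient M : ℝ) * (4 / Real.log X) := by
        have h5 : C * (N * M) / (Nat.totient M : ℝ) ≤ C * X / (Nat.totient M : ℝ) :=
          div_le_div_of_nonneg_right (mul_le_mul_of_nonneg_left hNM hC.le) hφ.le
        have h6 : 1 / Real.log N ≤ 4 / Real.log X := by
          rw [div_le_div_iff₀ hlN hlX]
          linarith
        exact mul_le_mul h5 h6 (by positivity) (by positivity)
    _ = 4 * C * (X / ((Nat.totient M : ℝ) * Real.log X)) := by
        field_simp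

end Pool.Agent.Helper57.TW
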