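import Pool.Agent.Helper57.TW.LBB
import Pool.Agent.Helper62.TW.S2
import Pool.Agent.Helper88.TW.KQ

/-! # Packet SL: lower bound for `AT` under the weight -/

set_option autoImplicit false

open Finset Filter Topology

open scoped Classical

namespace Pool.Agent.Helper57.TW

open Pool.Agent.Helper88.CG (tw pw th)
open Pool.Agent.Helper88.GM (NI XI)
open Pool.Agent.Helper88.PP (SS pr om Rg)
open Pool.Agent.Helper88.TU (Su)
open Pool.Agent.Helper76.TW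

theorem Rg_mono {w y z m : ℕ} (hwy : w ≤ y) (h : Rg w z m) : Rg y z m := by
  intro p hp
  unfold pr at hp
  rw [mem_filter, mem_Ioc] at hp
  refine h p ?_
  unfold pr
  exact mem_filter.2 ⟨mem_Ioc.2 ⟨by omega, hp.1.2⟩, hp.2⟩

/-- the pointwise inequality -/
theorem pj_le {E x w y z Q b j n p₁ : ℕ} (hE : 6 ≤ E) (hn : n ∈ NQ x Q b)
    (hb : b < Q) (hwy : w ≤ y) (hzx : z ≤ x) (hz1 : 1 ≤ z) (hjx : j ≤ x)
    (hxz : x < (z + 1) ^ E)
    (hQ : ∀ p : ℕ, p.Prime → p ≠ p₁ → p ≤ w → p ∣ Q) (hcop : Nat.Coprime (b + j + 2) Q) :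
    pj x w z j n ≤ (if AT E (n + j) then 1 else 0)
      + (if p₁ ≤ w ∧ (n + j).Prime ∧ Rg y z (n + j + 2) ∧ p₁ ∣ n + j + 2 then 1 else 0)
      + (if R2 y z (n + j) ∧ ∃ p ∈ pr z (4 * z), p ∣ n + j + 2 then 1 else 0) := by
  have a1 : (0 : ℝ) ≤ (if AT E (n + j) then 1 else 0) := by split_ifs <;> norm_num
  have a2 : (0 : ℝ) ≤ (if p₁ ≤ w ∧ (n + j).Prime ∧ Rg y z (n + j + 2) ∧ p₁ ∣ n + j + 2
      then 1 else 0) := by split_ifs <;> norm_num
  have a3 : (0 : ℝ) ≤ (if R2 y z (n + j) ∧ ∃ p ∈ pr z (4 * z), p ∣ n + j + 2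
      then 1 else 0) := by split_ifs <;> norm_num
  obtain ⟨g6, g7, g8⟩ := mem_NQ hn
  by_cases h0 : pj x w z j n = 0
  · rw [h0]
    linarith
  have h1 : pj x w z j n ≤ 1 := by
    unfold pj
    have h2 := pw_le_one (x := 32 * x) (n := n + j) (by omega)
    split_ifs
    · rw [mul_one]; exact h2
    · rw [mul_zero]; norm_num
  have hpr : (n + j).Prime := by
    by_contra h
    apply h0
    unfold pj Pool.Agent.Helper88.CG.pw
    rw [if_neg h, zero_mul]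
  have hRw : Rg w z (n + j + 2) := by
    by_contra h
    apply h0
    unfold pj
    rw [if_neg h, mul_zero]
  have hRy := Rg_mono hwy hRw
  have key : AT E (n + j) ∨
      (p₁ ≤ w ∧ (n + j).Prime ∧ Rg y z (n + j + 2) ∧ p₁ ∣ n + j + 2) ∨
      (R2 y z (n + j) ∧ ∃ p ∈ pr z (4 * z), p ∣ n + j + 2) := by
    by_cases hA : p₁ ≤ w ∧ p₁ ∣ n + j + 2
    · exact Or.inr (Or.inl ⟨hA.1, hpr, hRy, hA.2⟩)
    by_cases hB : ∃ p ∈ pr z (4 * z), p ∣ n + j + 2
    · refine Or.inr (Or.inr ⟨⟨?_, hRy⟩, hB⟩)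
      intro p hp hpd
      unfold pr at hp
      rw [mem_filter, mem_Ioc] at hp
      have h2 := (Nat.prime_dvd_prime_iff_eq hp.2 hpr).1 hpd
      omega
    refine Or.inl ⟨hpr, fun r hr hrE hrd => ?_⟩
    push Not at hA hB
    -- `r ≤ 4 z`
    have hr4 : r < 4 * z := by
      by_contra hcon
      push Not at hcon
      have h2 : (4 * z) ^ E ≤ r ^ E := Nat.pow_le_pow_left hcon E
      have h3 : (2 * (z + 1)) ^ E ≤ (4 * z) ^ E := Nat.pow_le_pow_left (by omega) E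
      have h4 : 2 ^ 6 ≤ 2 ^ E := Nat.pow_le_pow_right (by norm_num) hE
      have h5 : 2 ^ 6 * (z + 1) ^ E ≤ 2 ^ E * (z + 1) ^ E := Nat.mul_le_mul_right _ h4
      rw [mul_pow] at h3
      have h6 : 2 ^ 6 * (z + 1) ^ E ≤ r ^ E := h5.trans (h3.trans h2)
      have h7 : 64 * (z + 1) ^ E ≤ r ^ E := h6
      generalize (z + 1) ^ E = u at h7 hxz
      generalize r ^ E = v at h7 hrE
      omega
    rcases le_or_gt r w with h2 | h2
    · by_cases h3 : r = p₁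
      · rw [h3] at h2 hrd
        exact hA h2 hrd
      · have h4 := hQ r hr h3 h2
        have h5 : n + j + 2 ≡ b + j + 2 [MOD Q] :=
          ((NQ_modEq hb hn).add_right j).add_right 2
        have h6 : n + j + 2 ≡ b + j + 2 [MOD r] := h5.of_dvd h4
        have h7 : r ∣ b + j + 2 := (Nat.modEq_zero_iff_dvd.1
          (h6.symm.trans (Nat.modEq_zero_iff_dvd.2 hrd)))
        have h8 := Nat.dvd_gcd h7 h4
        rw [Nat.coprime_iff_gcd_eq_one.1 hcop] at h8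
        exact hr.one_lt.ne' (Nat.dvd_one.1 h8)
    · rcases le_or_gt r z with h3 | h3
      · refine hRw r ?_ hrd
        unfold pr
        exact mem_filter.2 ⟨mem_Ioc.2 ⟨h2, h3⟩, hr⟩
      · refine hB r ?_ hrd
        unfold pr
        exact mem_filter.2 ⟨mem_Ioc.2 ⟨h3, hr4.le⟩, hr⟩
  rcases key with h | h | h
  · rw [if_pos h]
    linarith
  · rw [if_pos h] at a2 ⊢
    linarith
  · rw [if_pos h] at a3 ⊢
    linarith

theorem sl (hLBB : StmtLBB) (hLB : StmtLB2) (hBT : StmtBT2) (hEX : StmtEX2) : StmtSL := by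
  obtain ⟨CB, hCB, E2, hBT⟩ := hBT
  obtain ⟨E1, hsize⟩ := Pool.Agent.Helper88.TU.size
  intro D q hq
  obtain ⟨c, hc, hLBB⟩ := hLBB D q hq
  set η : ℝ := min (c / 8) (1 / 4) with hη
  have hη0 : 0 < η := lt_min (by positivity) (by norm_num)
  have hη1 : η ≤ c / 8 := min_le_left _ _
  have hη2 : η ≤ 1 / 4 := min_le_right _ _
  obtain ⟨E3, hLB⟩ := hLB η hη0 (2 * D)
  obtain ⟨E4, hEX⟩ := hEX η hη0
  obtain ⟨E5, hLBB⟩ := hLBB (max (max 5 (q + 1)) ⌈8 * CB / c⌉₊)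
  -- `E log E ≤ E²/2`
  obtain ⟨E6, hE6⟩ : ∃ E6 : ℕ, ∀ E : ℕ, E6 ≤ E → (E : ℝ) * Real.log E ≤ (E : ℝ) ^ 2 / 2 := by
    refine ⟨16, fun E hE => ?_⟩
    have h16 : (16 : ℝ) ≤ E := by exact_mod_cast hE
    have hs : 0 < √(E : ℝ) := Real.sqrt_pos.2 (by linarith)
    have h1 : Real.log √(E : ℝ) ≤ √(E : ℝ) - 1 := Real.log_le_sub_one_of_pos hs
    rw [Real.log_sqrt (by linarith)] at h1
    have h2 : √(E : ℝ) ≤ E / 4 := by
      rw [Real.sqrt_le_left (by linarith)]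
      nlinarith only [h16]
    nlinarith only [h1, h2, h16]
  refine ⟨c / 4, by positivity, max (max (max E1 E2) (max E3 E4)) (max (max E5 E6) 16),
    fun E hE => ?_⟩
  have hE1 : E1 ≤ E := le_trans (by simp) hE
  have hE2 : E2 ≤ E := le_trans (by simp) hE
  have hE3 : E3 ≤ E := le_trans (by simp) hE
  have hE4 : E4 ≤ E := le_trans (by simp) hE
  have hE5 : E5 ≤ E := le_trans (by simp) hE
  have hE6' : E6 ≤ E := le_trans (by simp) hE
  have hE16 : 16 ≤ E := le_trans (by simp) hE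
  obtain ⟨x1, hLBB⟩ := hLBB E hE5
  obtain ⟨x2, hLB⟩ := hLB E hE3
  obtain ⟨x4, hEX⟩ := hEX E hE4
  set W := 24 * E + q + 4 with hW
  obtain ⟨x3, hx3⟩ : ∃ x3 : ℕ, ∀ x : ℕ, x3 ≤ x → ((W : ℕ) : ℝ) ^ D < Real.log x := by
    have h1 : Tendsto (fun x : ℕ => Real.log x) atTop atTop :=
      Real.tendsto_log_atTop.comp tendsto_natCast_atTop_atTop
    exact eventually_atTop.1 (h1.eventually_gt_atTop (((W : ℕ) : ℝ) ^ D))
  refine ⟨x1 + x2 + x3 + x4 + 16, fun x hx => ?_⟩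
  have hL1 := hx3 x (by omega)
  obtain ⟨p₁, hp₁, hp₁N, hLBB⟩ := hLBB x (by omega)
  have hp₁5 : 5 ≤ p₁ := le_trans (by simp) hp₁N
  have hp₁q' : q + 1 ≤ p₁ := le_trans (by simp) hp₁N
  have hp₁c : ⌈8 * CB / c⌉₊ ≤ p₁ := le_trans (by simp) hp₁N
  have hp₁q : ¬ p₁ ∣ q := fun h => by
    have h1 := Nat.le_of_dvd (by omega) h
    omega
  refine ⟨p₁, hp₁, hp₁5, hp₁q, fun z y w hSu hw10 hwD b hb P hP j hj hSep hcop1 hcop2 => ?_⟩
  have hwW := w_large hL1 hwD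
  obtain ⟨s1, s2, s3, s4, s5, s6, s7, s8, s9, s10, s11, s12, s13, s14⟩ := hsize E z x y hE1 hSu
  have hQ4 : Qm q p₁ w ^ 4 ≤ z := Q4_le hq (by omega) (by omega) (by omega) hw10 s3
  have hSu' := hSu
  obtain ⟨t1, t2, t3, t4, t5⟩ := hSu
  have hQ1 := Qm_pos hq p₁ w
  have hQpr : ∀ p : ℕ, p.Prime → p ∣ Qm q p₁ w → p ≤ w := fun p hp h => by
    rcases le_of_dvd_Qm hq hp h with h1 | h1
    · omega
    · exact h1
  have hQp₁ : Nat.Coprime (Qm q p₁ w) p₁ := Qm_coprime_p1 hp₁ hp₁q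
  have hQdvd : ∀ p : ℕ, p.Prime → p ≠ p₁ → p ≤ w → p ∣ Qm q p₁ w :=
    fun p hp h1 h2 => dvd_Qm hp h1 h2
  have hjj := hSep.1 j (mem_insert_self j P)
  have hLBB1 := hLBB z y w hSu' hw10 hwD b j hb hjj.1 hjj.2 hcop1 hcop2
  set Q := Qm q p₁ w with hQ
  set L := Real.log x with hLdef
  have hw1r : (1 : ℝ) ≤ w := by exact_mod_cast (by omega : 1 ≤ w)
  have hwL : (w : ℝ) ≤ L := by
    refine le_trans ?_ hw10
    calc (w : ℝ) = (w : ℝ) ^ 1 := (pow_one _).symm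
      _ ≤ (w : ℝ) ^ 10 := pow_le_pow_right₀ hw1r (by norm_num)
  have hL0 : 0 ≤ L := by linarith
  have hwy : w ≤ y := by exact_mod_cast hwL.trans t4
  have hywD : y ≤ w ^ (2 * D) := by
    have h1 : (y : ℝ) ≤ (w : ℝ) ^ (2 * D) := by
      calc (y : ℝ) ≤ L ^ 2 := t5
        _ ≤ ((w : ℝ) ^ D) ^ 2 := pow_le_pow_left₀ hL0 hwD 2
        _ = (w : ℝ) ^ (2 * D) := by rw [← pow_mul, mul_comm D 2]
    exact_mod_cast h1
  have hQ20 : Q ^ 20 ≤ x := by
    calc Q ^ 20 = (Q ^ 4) ^ 5 := by ring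
      _ ≤ z ^ 5 := Nat.pow_le_pow_left hQ4 5
      _ ≤ z ^ E := Nat.pow_le_pow_right (by omega) (by omega)
      _ ≤ x := t2
  have hQ40 : Q ^ 40 ≤ x := by
    calc Q ^ 40 = (Q ^ 4) ^ 10 := by ring
      _ ≤ z ^ 10 := Nat.pow_le_pow_left hQ4 10
      _ ≤ z ^ E := Nat.pow_le_pow_right (by omega) (by omega)
      _ ≤ x := t2
  have hIw : Iq x w Q b := ⟨hb, hQpr, hQ20⟩
  have hIy : Iq x y Q b := ⟨hb, fun p hp h => (hQpr p hp h).trans hwy, hQ20⟩
  have hP2 : (P.card : ℝ) * om y z ^ 2 ≤ (E : ℝ) ^ 2 / 2 := hP.trans (hE6 E hE6')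
  have hLB1 := hLB z x y w (by omega) hSu' hwy hywD Q b hIw hQ40 P hP2 j hj hSep
  have hEX1 := hEX z x y (by omega) hSu' Q b hIy P hP j hj hSep
  have hEr : (0 : ℝ) < E := by exact_mod_cast (by omega : 0 < E)
  have hSepP : Sep y P := by
    obtain ⟨h1, h2⟩ := hSep
    exact ⟨fun i hi => h1 i (mem_insert_of_mem hi),
      fun i hi i' hi' => h2 i (mem_insert_of_mem hi) i' (mem_insert_of_mem hi')⟩
  have hDt : 1 ≤ Dt2 E z y P := by
    unfold Dt2
    exact Pool.Agent.Helper62.TW.one_le_D2 _ _ _ _ _ (Pool.Agent.Helper88.TW.Sep_card hSepP)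
  have hX0 : 0 ≤ XQ x Q := XQ_nonneg x Q
  set T := XQ x Q * Dt2 E z y P * (om y z ^ 2 / E) with hT
  have hT0 : 0 ≤ T := by rw [hT]; positivity
  -- pointwise
  have hpoint : ∑ n ∈ NQ x Q b, pj x w z j n * Wt2 E z y P n ^ 2
      ≤ ∑ n ∈ (NQ x Q b).filter (fun n => AT E (n + j)), Wt2 E z y P n ^ 2
        + ∑ n ∈ (NQ x Q b).filter (fun n => p₁ ≤ w ∧ (n + j).Prime ∧ Rg y z (n + j + 2) ∧
            p₁ ∣ n + j + 2), Wt2 E z y P n ^ 2
        + ∑ n ∈ (NQ x Q b).filter (fun n => R2 y z (n + j) ∧ ∃ p ∈ pr z (4 * z),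
            p ∣ n + j + 2), Wt2 E z y P n ^ 2 := by
    rw [sum_filter, sum_filter, sum_filter, ← sum_add_distrib, ← sum_add_distrib]
    refine sum_le_sum fun n hn => ?_
    have h1 := pj_le (E := E) (y := y) (by omega) hn hb hwy s11 (by omega) (by omega) t3 hQdvd
      hcop2
    have h2 := mul_le_mul_of_nonneg_right h1 (sq_nonneg (Wt2 E z y P n))
    refine h2.trans (le_of_eq ?_)
    rw [add_mul, add_mul]
    split_ifs <;> ring
  -- the exceptional prime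
  have hexc : ∑ n ∈ (NQ x Q b).filter (fun n => p₁ ≤ w ∧ (n + j).Prime ∧ Rg y z (n + j + 2) ∧
            p₁ ∣ n + j + 2), Wt2 E z y P n ^ 2 ≤ c / 8 * T := by
    by_cases hpw : p₁ ≤ w
    swap
    · have h0 : (NQ x Q b).filter (fun n => p₁ ≤ w ∧ (n + j).Prime ∧ Rg y z (n + j + 2) ∧
            p₁ ∣ n + j + 2) = ∅ := by
        rw [filter_eq_empty_iff]
        intro n _ h
        exact hpw h.1
      rw [h0, sum_empty]
      positivity
    obtain ⟨b', hb', hcl⟩ := class_mul Q p₁ b (j + 2) hp₁.one_lt.le hb hQp₁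
    have hpy : p₁ ≤ y := hpw.trans hwy
    have hIq : Iq x y (Q * p₁) b' := by
      refine ⟨hb', fun p hp h => ?_, ?_⟩
      · rcases (Nat.Prime.dvd_mul hp).1 h with h1 | h1
        · exact (hQpr p hp h1).trans hwy
        · rw [(Nat.prime_dvd_prime_iff_eq hp hp₁).1 h1]
          exact hpy
      · calc (Q * p₁) ^ 20 = (Q ^ 4) ^ 5 * (p₁ ^ 2) ^ 10 := by ring
          _ ≤ z ^ 5 * z ^ 10 := by
              refine Nat.mul_le_mul (Nat.pow_le_pow_left hQ4 5) (Nat.pow_le_pow_left ?_ 10)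
              exact (Nat.pow_le_pow_left hpy 2).trans s8
          _ = z ^ 15 := by ring
          _ ≤ z ^ E := Nat.pow_le_pow_right (by omega) (by omega)
          _ ≤ x := t2
    have h1 := (hBT E z x y hE2 hSu' (Q * p₁) b' hIq).2.1 P hP2 j hj hSep
    have h2 : (NQ x Q b).filter (fun n => p₁ ≤ w ∧ (n + j).Prime ∧ Rg y z (n + j + 2) ∧
            p₁ ∣ n + j + 2)
        ⊆ (NQ x (Q * p₁) b').filter (fun n => (n + j).Prime ∧ Rg y z (n + j + 2)) := by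
      intro n hn
      rw [mem_filter] at hn
      obtain ⟨g1, g2, g3, g4, g5⟩ := hn
      obtain ⟨g6, g7, g8⟩ := mem_NQ g1
      refine mem_filter.2 ⟨?_, g3, g4⟩
      unfold NQ NI
      refine mem_filter.2 ⟨mem_Ioc.2 ⟨g6, g7⟩, (hcl n).2 ⟨g8, ?_⟩⟩
      rw [← add_assoc]
      exact g5
    have h3 := (sum_le_sum_of_subset_of_nonneg (f := fun n => Wt2 E z y P n ^ 2) h2
      (fun n _ _ => sq_nonneg _)).trans h1
    rw [XQ_mul hp₁.one_lt.le] at h3
    have hp₁r : (0 : ℝ) < p₁ := by exact_mod_cast hp₁.pos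
    have h4 : CB / p₁ ≤ c / 8 := by
      rw [div_le_div_iff₀ hp₁r (by norm_num)]
      have h5 : 8 * CB / c ≤ p₁ := (Nat.le_ceil _).trans (by exact_mod_cast hp₁c)
      rw [div_le_iff₀ hc] at h5
      linarith
    refine h3.trans ?_
    calc CB * (XQ x Q / p₁ * Dt2 E z y P) * (om y z ^ 2 / E) = CB / p₁ * T := by rw [hT]; ring
      _ ≤ c / 8 * T := mul_le_mul_of_nonneg_right h4 hT0
  have hEX2 : ∑ n ∈ (NQ x Q b).filter (fun n => R2 y z (n + j) ∧ ∃ p ∈ pr z (4 * z),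
            p ∣ n + j + 2), Wt2 E z y P n ^ 2 ≤ c / 8 * T :=
    hEX1.trans (mul_le_mul_of_nonneg_right hη1 hT0)
  have hlow : 5 / 8 * c * T ≤ ∑ n ∈ NQ x Q b, pj x w z j n * Wt2 E z y P n ^ 2 := by
    refine le_trans ?_ hLB1
    set S := ∑ n ∈ NQ x Q b, pj x w z j n with hS
    set V := XQ x Q * (om y z ^ 2 / E) with hV
    have hV0 : 0 ≤ V := by rw [hV]; positivity
    have e1 : T = Dt2 E z y P * V := by rw [hT, hV]; ring
    rw [e1]
    have h1 : 5 / 8 * c * V ≤ (1 - η) * S - η * V := by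
      have h2 : (1 - η) * (c * V) ≤ (1 - η) * S := mul_le_mul_of_nonneg_left hLBB1 (by linarith)
      have h3 : 3 / 4 * (c * V) ≤ (1 - η) * (c * V) :=
        mul_le_mul_of_nonneg_right (by linarith) (by positivity)
      have h4 : η * V ≤ c / 8 * V := mul_le_mul_of_nonneg_right hη1 hV0
      linarith
    have h5 := mul_le_mul_of_nonneg_left h1 (by linarith : 0 ≤ Dt2 E z y P)
    calc 5 / 8 * c * (Dt2 E z y P * V) = Dt2 E z y P * (5 / 8 * c * V) := by ring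
      _ ≤ _ := h5
  have hcT : 0 ≤ c * T := by positivity
  linarith only [hpoint, hexc, hEX2, hlow, hcT]

end Pool.Agent.Helper57.TW
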